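import Pool.Agent.W927.BM.Pos0

set_option autoImplicit false

/-! # The category half of project BM, measurable part -/

noncomputable section

namespace Pool.Agent.W927.BM

open MeasureTheory

/-- patterns -/
abbrev Pat : Type := Finset (ℕ × (ℤ × ℤ))

/-- codes of cells -/
abbrev Cod : Type := ℕ × (ℤ × ℤ) × Pat

/-- discrete sigma algebra on patterns -/
local instance instMSPat : MeasurableSpace Pat := ⊤

local instance instDMSPat : DiscreteMeasurableSpace Pat := ⟨fun _ => trivial⟩

/-- discrete sigma algebra on labels -/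
local instance instMSLab' : MeasurableSpace Lab := ⊤

local instance instDMSLab' : DiscreteMeasurableSpace Lab := ⟨fun _ => trivial⟩

/-- the centres in a pattern -/
def patSet (P : Pat) : ℕ → Set (ℤ × ℤ) := fun i => {z | (i, z) ∈ P}

instance instNonemptyLens : Nonempty Lens := ⟨⟨0, 0, 0, 0, fun _ => 0, fun _ => 0⟩⟩

instance instNonemptyIData : Nonempty IData := ⟨⟨Classical.arbitrary _, fun _ _ => 0, fun _ => 0, fun _ _ => 0,
  fun _ => 0⟩⟩

open Classical in
/-- data chosen for a pattern -/
def dataOf (k : ℕ) (P : Pat) : IData :=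
  if h : ∃ D : IData, D.OK k (patSet P) then h.choose else Classical.arbitrary _

theorem dataOf_ok (hG : S_GEO) (hR : S_ROUTE) {k : ℕ} {P : Pat}
    (hP : ∀ i < k, Sep (patSet P i) (Rk i)) : (dataOf k P).OK k (patSet P) := by
  have h := exists_IData hG hR k (patSet P) hP
  unfold dataOf
  rw [dif_pos h]
  exact h.choose_spec

/-- the window -/
def box (k : ℕ) : Finset (ℕ × (ℤ × ℤ)) :=
  Finset.range k ×ˢ (Finset.Icc (-(4 * Sk k)) (4 * Sk k) ×ˢ Finset.Icc (-(4 * Sk k)) (4 * Sk k))

section

variable {X : Type} (T : ℤ → ℤ → X → X) (U : ℕ → Set X)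

open Classical in
/-- the pattern around a point -/
def patOf (k : ℕ) (y : X) : Pat := (box k).filter (fun iz => T iz.2.1 iz.2.2 y ∈ U iz.1)

/-- the point `y` lies in the island of level `k` with centre `T z y` -/
def isl (k : ℕ) (z : ℤ × ℤ) (y : X) : Prop :=
  T z.1 z.2 y ∈ U k ∧ (dataOf k (patOf T U k (T z.1 z.2 y))).I.In (-z.1) (-z.2)

theorem exists_lev (y : X) : ∃ k, (∃ z, isl T U k z y) ∨ ¬ ∃ k, ∃ z, isl T U k z y := by
  by_cases h : ∃ k, ∃ z, isl T U k z y
  · obtain ⟨k, hk⟩ := h
    exact ⟨k, Or.inl hk⟩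
  · exact ⟨0, Or.inr h⟩

open Classical in
/-- level of the innermost island -/
def levX (y : X) : ℕ := Nat.find (exists_lev T U y)

theorem exists_cen (y : X) : ∃ n : ℕ, isl T U (levX T U y) (Denumerable.ofNat (ℤ × ℤ) n) y ∨
    ¬ ∃ z, isl T U (levX T U y) z y := by
  by_cases h : ∃ z, isl T U (levX T U y) z y
  · obtain ⟨z, hz⟩ := h
    refine ⟨Encodable.encode z, Or.inl ?_⟩
    rw [Denumerable.ofNat_encode]
    exact hz
  · exact ⟨0, Or.inr h⟩

open Classical in
/-- centre of the innermost island -/
def cenX (y : X) : ℤ × ℤ := Denumerable.ofNat (ℤ × ℤ) (Nat.find (exists_cen T U y))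

/-- code of a point -/
def cod (y : X) : Cod :=
  (levX T U y, cenX T U y, patOf T U (levX T U y) (T (cenX T U y).1 (cenX T U y).2 y))

/-- info from a code -/
def toInfo (c : Cod) : Info := ⟨c.1, (-c.2.1.1, -c.2.1.2), dataOf c.1 c.2.2⟩

/-- the labelling -/
def labX (y : X) : Lab :=
  labOf (toInfo (cod T U y)) (toInfo (cod T U (T 0 (-1) y))) (toInfo (cod T U (T 1 0 y)))

theorem levX_spec {y : X} (h : ∃ k, ∃ z, isl T U k z y) : ∃ z, isl T U (levX T U y) z y := by
  classical
  have := Nat.find_spec (exists_lev T U y)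
  rcases this with h' | h'
  · exact h'
  · exact absurd h h'

theorem levX_min {y : X} {k : ℕ} (hk : k < levX T U y) : ¬ ∃ z, isl T U k z y := by
  classical
  intro h
  exact Nat.find_min (exists_lev T U y) hk (Or.inl h)

theorem cenX_spec {y : X} (h : ∃ k, ∃ z, isl T U k z y) :
    isl T U (levX T U y) (cenX T U y) y := by
  classical
  have := Nat.find_spec (exists_cen T U y)
  rcases this with h' | h'
  · exact h'
  · exact absurd (levX_spec T U h) h'

/-! ## measurability -/

variable [MeasurableSpace X]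

theorem measurable_patOf (hT : ∀ t x, Measurable (T t x)) (hU : ∀ k, MeasurableSet (U k)) (k : ℕ) :
    Measurable (patOf T U k) := by
  classical
  refine measurable_to_countable' fun P => ?_
  have : patOf T U k ⁻¹' {P} = {_y : X | P ⊆ box k} ∩
      ⋂ iz ∈ box k, {y : X | T iz.2.1 iz.2.2 y ∈ U iz.1 ↔ iz ∈ P} := by
    ext y
    simp only [Set.mem_preimage, Set.mem_singleton_iff, Set.mem_inter_iff, Set.mem_ofPred_eq,
      Set.mem_iInter]
    constructor
    · rintro rfl
      refine ⟨Finset.filter_subset _ _, fun iz hiz => ?_⟩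
      unfold patOf
      rw [Finset.mem_filter]
      tauto
    · rintro ⟨h1, h2⟩
      ext iz
      unfold patOf
      rw [Finset.mem_filter]
      constructor
      · rintro ⟨h3, h4⟩; exact (h2 iz h3).1 h4
      · intro h3; exact ⟨h1 h3, (h2 iz (h1 h3)).2 h3⟩
  rw [this]
  refine (MeasurableSet.const _).inter ?_
  refine Finset.measurableSet_biInter _ fun iz _ => ?_
  by_cases h : iz ∈ P
  · simp only [h, iff_true]
    exact hT _ _ (hU _)
  · simp only [h, iff_false]
    exact (hT _ _ (hU _)).compl

theorem measurableSet_isl (hT : ∀ t x, Measurable (T t x)) (hU : ∀ k, MeasurableSet (U k)) (k : ℕ)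
    (z : ℤ × ℤ) : MeasurableSet {y | isl T U k z y} := by
  have : {y | isl T U k z y} = T z.1 z.2 ⁻¹' (U k) ∩
      T z.1 z.2 ⁻¹' (patOf T U k ⁻¹' {P | (dataOf k P).I.In (-z.1) (-z.2)}) := by
    ext y; rfl
  rw [this]
  exact (hT _ _ (hU _)).inter (hT _ _ (measurable_patOf T U hT hU k trivial))

theorem measurable_levX (hT : ∀ t x, Measurable (T t x)) (hU : ∀ k, MeasurableSet (U k)) :
    Measurable (levX T U) := by
  classical
  have h1 : ∀ k, MeasurableSet {y | ∃ z, isl T U k z y} := by
    intro k
    have : {y | ∃ z, isl T U k z y} = ⋃ z, {y | isl T U k z y} := by ext y; simp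
    rw [this]
    exact MeasurableSet.iUnion fun z => measurableSet_isl T U hT hU k z
  have h2 : MeasurableSet {y | ∃ k, ∃ z, isl T U k z y} := by
    have : {y | ∃ k, ∃ z, isl T U k z y} = ⋃ k, {y | ∃ z, isl T U k z y} := by ext y; simp
    rw [this]
    exact MeasurableSet.iUnion h1
  unfold levX
  exact measurable_find (exists_lev T U) fun k => (h1 k).union h2.compl

theorem measurableSet_isl_lev (hT : ∀ t x, Measurable (T t x)) (hU : ∀ k, MeasurableSet (U k))
    (z : ℤ × ℤ) : MeasurableSet {y | isl T U (levX T U y) z y} := by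
  have : {y | isl T U (levX T U y) z y} = ⋃ k, (levX T U ⁻¹' {k} ∩ {y | isl T U k z y}) := by
    ext y; simp
  rw [this]
  exact MeasurableSet.iUnion fun k => (measurable_levX T U hT hU (measurableSet_singleton k)).inter
    (measurableSet_isl T U hT hU k z)

theorem measurable_cenX (hT : ∀ t x, Measurable (T t x)) (hU : ∀ k, MeasurableSet (U k)) :
    Measurable (cenX T U) := by
  classical
  have h2 : MeasurableSet {y | ∃ z, isl T U (levX T U y) z y} := by
    have : {y | ∃ z, isl T U (levX T U y) z y} = ⋃ z, {y | isl T U (levX T U y) z y} := by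
      ext y; simp
    rw [this]
    exact MeasurableSet.iUnion fun z => measurableSet_isl_lev T U hT hU z
  unfold cenX
  refine (measurable_of_countable (Denumerable.ofNat (ℤ × ℤ))).comp
    (measurable_find (exists_cen T U) fun n => ?_)
  exact (measurableSet_isl_lev T U hT hU _).union h2.compl

theorem mc1 (hT : ∀ t x, Measurable (T t x)) (hU : ∀ k, MeasurableSet (U k)) : Measurable (fun p : (ℕ × (ℤ × ℤ)) × X => patOf T U p.1.1 (T p.1.2.1 p.1.2.2 p.2)) := by
    refine measurable_from_prod_countable_right fun p => ?_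
    change Measurable (fun y => patOf T U p.1 (T p.2.1 p.2.2 y))
    exact (measurable_patOf T U hT hU p.1).comp (hT p.2.1 p.2.2)

theorem mc2 (hT : ∀ t x, Measurable (T t x)) (hU : ∀ k, MeasurableSet (U k)) : Measurable (fun y : X => (((levX T U y, cenX T U y), y) : (ℕ × (ℤ × ℤ)) × X)) := by
  have hl := measurable_levX T U hT hU
  have hc := measurable_cenX T U hT hU
  exact (hl.prodMk hc).prodMk measurable_id

theorem mc3 (hT : ∀ t x, Measurable (T t x)) (hU : ∀ k, MeasurableSet (U k)) : Measurable (fun y : X => patOf T U (levX T U y) (T (cenX T U y).1 (cenX T U y).2 y)) := by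
  have := (mc1 T U hT hU).comp (mc2 T U hT hU)
  exact this

theorem mc4 (hT : ∀ t x, Measurable (T t x)) (hU : ∀ k, MeasurableSet (U k)) : Measurable (fun y : X => (cenX T U y, patOf T U (levX T U y) (T (cenX T U y).1 (cenX T U y).2 y))) := 
  (measurable_cenX T U hT hU).prodMk (mc3 T U hT hU)

theorem mc5 (hT : ∀ t x, Measurable (T t x)) (hU : ∀ k, MeasurableSet (U k)) : Measurable (fun y : X => (levX T U y, cenX T U y, patOf T U (levX T U y) (T (cenX T U y).1 (cenX T U y).2 y))) := 
  (measurable_levX T U hT hU).prodMk (mc4 T U hT hU)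

omit [MeasurableSpace X] in
theorem cod_eq : cod T U = (fun y : X => (levX T U y, cenX T U y, patOf T U (levX T U y) (T (cenX T U y).1 (cenX T U y).2 y))) := by
  funext y; unfold cod; rfl

theorem measurable_cod (hT : ∀ t x, Measurable (T t x)) (hU : ∀ k, MeasurableSet (U k)) :
    Measurable (cod T U) := by
  rw [cod_eq]
  exact mc5 T U hT hU

theorem measurable_labX (hT : ∀ t x, Measurable (T t x)) (hU : ∀ k, MeasurableSet (U k)) :
    Measurable (labX T U) := by
  have hc := measurable_cod T U hT hU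
  have h1 : Measurable (fun p : Cod × Cod × Cod => labOf (toInfo p.1) (toInfo p.2.1)
    (toInfo p.2.2)) := measurable_of_countable _
  exact h1.comp (hc.prodMk ((hc.comp (hT _ _)).prodMk (hc.comp (hT _ _))))

end

theorem pos_of (hC : S_CAT) (hG : S_GEO) (hR : S_ROUTE) (hL : S_LAB1) : S_POS := by
  classical
  intro X _ _ _ _ T T0 Tadd Tm Tfree
  obtain ⟨U, G, hU, hsep, hGm, hGinv, hGres, hGU⟩ := hC X T T0 Tadd Tm Tfree Rk
  refine ⟨labX T U, G, fun l => measurable_labX T U Tm hU trivial, hGm, hGinv, hGres, ?_⟩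
  intro y hy
  -- centres on the orbit
  set C : ℕ → Set (ℤ × ℤ) := fun k => {z | T z.1 z.2 y ∈ U k} with hCdef
  have hadd : ∀ s z : ℤ × ℤ, T (s.1 + z.1) (s.2 + z.2) y = T s.1 s.2 (T z.1 z.2 y) :=
    fun s z => Tadd _ _ _ _ _
  have hCsep : ∀ k, ∀ y : X, Sep {z | T z.1 z.2 y ∈ U k} (Rk k) := by
    intro k y p hp q hq hpq
    by_contra hlt
    unfold dd at hlt
    rw [not_lt, max_le_iff] at hlt
    have h1 : T (q.1 - p.1) (q.2 - p.2) (T p.1 p.2 y) = T q.1 q.2 y := by
      rw [← Tadd, sub_add_cancel, sub_add_cancel]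
    have h2 := hsep k _ hp (q.1 - p.1) (q.2 - p.2) (by rw [abs_sub_comm]; exact hlt.1)
      (by rw [abs_sub_comm]; exact hlt.2) (by rw [h1]; exact hq)
    apply hpq
    ext
    · omega
    · omega
  have hok : ∀ k, ∀ y : X, (dataOf k (patOf T U k y)).OK k (fun i => {z | T z.1 z.2 y ∈ U i}) := by
    intro k y
    have hsub : ∀ i, patSet (patOf T U k y) i ⊆ {z | T z.1 z.2 y ∈ U i} := by
      intro i z hz
      exact (Finset.mem_filter.1 hz).2
    have h1 : ∀ i < k, Sep (patSet (patOf T U k y) i) (Rk i) := by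
      intro i _ p hp q hq hpq
      exact hCsep i y p (hsub i hp) q (hsub i hq) hpq
    refine (dataOf_ok hG hR h1).mono ?_ (fun i _ => hsub i)
    intro i hi z hz hz'
    refine Finset.mem_filter.2 ⟨?_, hz⟩
    unfold dd at hz'
    simp only [sub_zero, max_le_iff, abs_le] at hz'
    unfold box
    simp only [Finset.mem_product, Finset.mem_range, Finset.mem_Icc]
    exact ⟨hi, hz'.1, hz'.2⟩
  have hex : ∀ y ∈ G, ∃ k, ∃ z, isl T U k z y := by
    intro y hy
    obtain ⟨k, hk⟩ := hGU y hy
    have h1 := (hok k y).ok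
    refine ⟨k, (0, 0), ?_, ?_⟩
    · change T 0 0 y ∈ U k
      rw [T0]; exact hk
    · change (dataOf k (patOf T U k (T 0 0 y))).I.In (-0) (-0)
      rw [T0, neg_zero]
      have := h1.t0_neg
      have := h1.t1_pos
      have := h1.d_zero
      have := h1.u_zero
      exact ⟨by omega, by omega, by omega, by omega⟩
  set lev : ℤ → ℤ → ℕ := fun t x => levX T U (T t x y) with hlev
  set cen : ℤ → ℤ → ℤ × ℤ := fun t x =>
    ((cenX T U (T t x y)).1 + t, (cenX T U (T t x y)).2 + x) with hcen
  set D : ℕ → ℤ × ℤ → IData := fun k z => dataOf k (patOf T U k (T z.1 z.2 y)) with hD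
  have hfam : Fam C lev cen D := by
    refine ⟨fun k => hCsep k y, ?_, ?_, ?_, ?_⟩
    · intro k z _
      have := hok k (T z.1 z.2 y)
      have e : shC C z = fun i => {w | T w.1 w.2 (T z.1 z.2 y) ∈ U i} := by
        funext i
        ext w
        change T (w + z).1 (w + z).2 y ∈ U i ↔ _
        rw [Prod.fst_add, Prod.snd_add, hadd w z]
        rfl
      rw [e]
      exact this
    · intro t x
      have := (cenX_spec T U (hex (T t x y) (hGinv t x y hy))).1
      change T ((cenX T U (T t x y)).1 + t) ((cenX T U (T t x y)).2 + x) y ∈ U _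
      rw [Tadd]
      exact this
    · intro t x
      have := (cenX_spec T U (hex (T t x y) (hGinv t x y hy))).2
      change (dataOf (levX T U (T t x y)) (patOf T U (levX T U (T t x y))
        (T ((cenX T U (T t x y)).1 + t) ((cenX T U (T t x y)).2 + x) y))).I.In
        (t - ((cenX T U (T t x y)).1 + t)) (x - ((cenX T U (T t x y)).2 + x))
      rw [Tadd, show t - ((cenX T U (T t x y)).1 + t) = -(cenX T U (T t x y)).1 by ring,
        show x - ((cenX T U (T t x y)).2 + x) = -(cenX T U (T t x y)).2 by ring]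
      exact this
    · intro t x k hk z hz hin
      refine levX_min T U hk ⟨(z.1 - t, z.2 - x), ?_, ?_⟩
      · change T (z.1 - t) (z.2 - x) (T t x y) ∈ U k
        rw [← Tadd, sub_add_cancel, sub_add_cancel]
        exact hz
      · change (dataOf k (patOf T U k (T (z.1 - t) (z.2 - x) (T t x y)))).I.In (-(z.1 - t))
          (-(z.2 - x))
        rw [← Tadd, sub_add_cancel, sub_add_cancel, neg_sub, neg_sub]
        exact hin
  have hlab : (fun t' x' => labX T U (T t' x' y)) = labs lev cen D := by
    have h1 : ∀ t x, toInfo (cod T U (T t x y)) = inf lev cen D t x := by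
      intro t x
      unfold toInfo cod inf
      simp only [hlev, hcen, hD]
      rw [Tadd]
      congr 2
      · ring
      · ring
    funext t x
    unfold labX labs
    rw [← Tadd, ← Tadd, h1, h1, h1]
    congr 2
    · ring
    · ring
    · ring
    · ring
  rw [hlab]
  exact hfam.rule hL

end Pool.Agent.W927.BM

end
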