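import Pool.Agent.W927.BM.Neg
import Pool.Agent.W927.BM.Pos
import Pool.Agent.W290.BM.Det1
import Pool.Agent.W227.BM.Det2
import Pool.Agent.W374.BM.MT
import Pool.Agent.W928.BM.POT
import Pool.Agent.W723.BM.Wall
import Pool.Agent.W374.BM.Tip
import Pool.Agent.W875.BM.Geo
import Pool.Agent.W503.BM.Route
import Pool.Agent.W227.BM.Lab1
import Pool.Agent.W928.BM.CAT

set_option autoImplicit false

/-! # The two halves of project BM -/

namespace Pool.Agent.W927.BM

theorem geo : S_GEO := Pool.Agent.W875.BMGeo.main Pool.Agent.W723.BM.main Pool.Agent.W374.BMTip.main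

theorem route : S_ROUTE := Pool.Agent.W503.BM.main Pool.Agent.W928.BM.POT.main

/-- no measurable solution -/
theorem neg : S_NEG :=
  neg_of Pool.Agent.W290.BM.main Pool.Agent.W227.BM.main Pool.Agent.W374.BMMT.mt1
    Pool.Agent.W374.BMMT.mt2

/-- solution on a comeagre set -/
theorem pos : S_POS :=
  pos_of Pool.Agent.W928.BM.CAT.main geo route Pool.Agent.W227.BMLab.main

end Pool.Agent.W927.BM
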