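import Pool.Agent.W927.BM.Neg0

set_option autoImplicit false

/-! # The rule only depends on a window -/

namespace Pool.Agent.W927.BM

/-- agreement of two layers near `(t, x)` and `(t', x')` -/
def Agr (A B : Lay) (t x t' x' : ℤ) : Prop :=
  ∀ s y : ℤ, |s| ≤ 1 → |y| ≤ 1 → A.e0 (t + s) (x + y) = B.e0 (t' + s) (x' + y) ∧
    A.e1 (t + s) (x + y) = B.e1 (t' + s) (x' + y) ∧
    A.l0 (t + s) (x + y) = B.l0 (t' + s) (x' + y) ∧
    A.l1 (t + s) (x + y) = B.l1 (t' + s) (x' + y) ∧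
    A.p (t + s) (x + y) = B.p (t' + s) (x' + y) ∧
    A.q (t + s) (x + y) = B.q (t' + s) (x' + y)

theorem Loc_congr {A B : Lay} {K : ℕ} {t x t' x' : ℤ} (h : Agr A B t x t' x')
    (hA : A.Loc K t x) : B.Loc K t' x' := by
  have q1 : |(-1 : ℤ)| ≤ 1 := by norm_num
  have q2 : |(0 : ℤ)| ≤ 1 := by norm_num
  have q3 : |(1 : ℤ)| ≤ 1 := by norm_num
  have a1 := h (-1) 0 q1 q2
  have a2 := h (-1) (-1) q1 q1
  have a3 := h 0 0 q2 q2
  have a4 := h 0 (-1) q2 q1
  have a5 := h 1 0 q3 q2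
  have a6 := h 0 1 q2 q3
  have a7 := h 1 1 q3 q3
  simp only [← sub_eq_add_neg, add_zero] at a1 a2 a3 a4 a5 a6 a7
  obtain ⟨b1, b2, b3, b4, b5, b6⟩ := a1
  obtain ⟨c1, c2, c3, c4, c5, c6⟩ := a2
  obtain ⟨d1, d2, d3, d4, d5, d6⟩ := a3
  obtain ⟨e1, e2, e3, e4, e5, e6⟩ := a4
  obtain ⟨f1, f2, f3, f4, f5, f6⟩ := a5
  obtain ⟨g1, g2, g3, g4, g5, g6⟩ := a6
  obtain ⟨h1, h2, h3, h4, h5, h6⟩ := a7
  have m1 : t + 1 - 1 = t := by ring
  have m2 : t' + 1 - 1 = t' := by ring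
  have m3 : x + 1 - 1 = x := by ring
  have m4 : x' + 1 - 1 = x' := by ring
  have N : A.N t x ↔ B.N t' x' := by unfold Lay.N; rw [b1, c2, d1, d2]
  have S : A.S t x ↔ B.S t' x' := by unfold Lay.S; rw [b1, c2, d1, d2]
  have M : A.M t x ↔ B.M t' x' := by unfold Lay.M; rw [b1, c2, d1, d2]
  have U : A.U t x ↔ B.U t' x' := by unfold Lay.U; rw [b1, c2, d1, d2]
  have D : A.D t x ↔ B.D t' x' := by unfold Lay.D; rw [b1, c2, d1, d2]
  have NL : A.NoLine t x ↔ B.NoLine t' x' := by unfold Lay.NoLine; rw [b3, c4, d3, d4]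
  have L : A.Line t x ↔ B.Line t' x' := by unfold Lay.Line; rw [b3, c4, d3, d4]
  have E : A.Ev t x ↔ B.Ev t' x' := by unfold Lay.Ev; rw [c4, d3]
  have U0 : A.U (t + 1) x ↔ B.U (t' + 1) x' := by
    unfold Lay.U; rw [m1, m2, d1, e2, f1, f2]
  have U1 : A.U (t + 1) (x + 1) ↔ B.U (t' + 1) (x' + 1) := by
    unfold Lay.U; rw [m1, m2, m3, m4, g1, d2, h1, h2]
  have N0 : A.Nx t x x ↔ B.Nx t' x' x' := by
    unfold Lay.Nx; rw [d5, f5, E, f6, d6]
  have N1 : A.Nx t x (x + 1) ↔ B.Nx t' x' (x' + 1) := by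
    unfold Lay.Nx; rw [d5, h5, E, h6, d6]
  refine ⟨?_, ?_, ?_, ?_, ?_, ?_, ?_, ?_, ?_, ?_⟩
  · rw [← N, ← S, ← M, ← U, ← D]; exact hA.typ
  · rw [← N, ← NL, ← L]; exact hA.lin
  · rw [← S, ← M, ← D, ← NL]; exact hA.nol
  · rw [← U, ← b3]; exact hA.ul0
  · rw [← U, ← d4]; exact hA.ul1
  · rw [← U, ← c4, ← b1, ← d5]; exact hA.ulE
  · rw [← U, ← d3, ← d2, ← d5]; exact hA.ulS
  · rw [← U, ← d1, ← U0, ← N0]; exact hA.nx0
  · rw [← U, ← d2, ← U1, ← N1]; exact hA.nx1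
  · rw [← d6]; exact hA.qlt

theorem Rule_congr {σ σ' : ℤ → ℤ → Lab} {t x t' x' : ℤ}
    (h : ∀ s y : ℤ, |s| ≤ 2 → |y| ≤ 2 → σ (t + s) (x + y) = σ' (t' + s) (x' + y))
    (hR : Rule σ t x) : Rule σ' t' x' := by
  obtain ⟨h1, h2, h3⟩ := hR
  refine ⟨Loc_congr ?_ h1, Loc_congr ?_ h2, ?_⟩
  · intro s y hs hy
    have := h s y (by omega) (by omega)
    simp only [lay1, this, and_self]
  · intro s y hs hy
    rw [abs_le] at hs hy
    have e1 := h (-s - 1) (-y) (by rw [abs_le]; omega) (by rw [abs_le]; omega)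
    have e2 := h (-s - 1) (-y - 1) (by rw [abs_le]; omega) (by rw [abs_le]; omega)
    have e3 := h (-s) (-y) (by rw [abs_le]; omega) (by rw [abs_le]; omega)
    have i1 : ∀ t : ℤ, -(-t + s) - 1 = t + (-s - 1) := fun t => by ring
    have i2 : ∀ x : ℤ, -(-x + y) = x + -y := fun t => by ring
    have i3 : ∀ x : ℤ, -(-x + y) - 1 = x + (-y - 1) := fun t => by ring
    have i4 : ∀ t : ℤ, -(-t + s) = t + -s := fun t => by ring
    simp only [lay2]
    rw [i1 t, i1 t', i3 x, i3 x', i2 x, i2 x', i4 t, i4 t', e1, e2, e3]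
    simp only [and_self]
  · have c1 := h 1 0 (by norm_num) (by norm_num)
    have c2 := h 0 (-1) (by norm_num) (by norm_num)
    have c3 := h 0 0 (by norm_num) (by norm_num)
    simp only [← sub_eq_add_neg, add_zero] at c1 c2 c3
    unfold Lay.ColAt at h3 ⊢
    simp only [lay1, col] at h3 ⊢
    rw [← c1, ← c2, ← c3]
    exact h3

/-- the checkerboard label -/
def chk (b : Bool) : Lab := (.n, .n, b, (false, false, false, 0), (false, false, false, 0))

/-- The checkerboard satisfies the rule. -/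
theorem chk_rule {σ : ℤ → ℤ → Lab} {c : ℤ → ℤ → Bool} (h : ∀ t x, σ t x = chk (c t x))
    (hc : ∀ t x y, c (t + 1) x ≠ c t y) (t x : ℤ) : Rule σ t x := by
  have key : ∀ A : Lay, (∀ t x, A.e0 t x = .n) → (∀ t x, A.e1 t x = .n) →
      (∀ t x, A.l0 t x = false) → (∀ t x, A.l1 t x = false) → (∀ t x, A.q t x = 0) →
      ∀ t x, A.Loc 512 t x := by
    intro A h1 h2 h3 h4 h5 t x
    have hN : A.N t x := ⟨h1 _ _, h2 _ _, h1 _ _, h2 _ _⟩
    have hU : ∀ t x, ¬ A.U t x := by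
      rintro t x ⟨h | h, _⟩
      · rw [h1] at h; exact absurd h.1 (by decide)
      · rw [h2] at h; exact absurd h.2 (by decide)
    refine ⟨Or.inl hN, fun _ => Or.inl ⟨h3 _ _, h4 _ _, h3 _ _, h4 _ _⟩,
      fun _ => ⟨h3 _ _, h4 _ _, h3 _ _, h4 _ _⟩, fun h => absurd h (hU _ _),
      fun h => absurd h (hU _ _), fun h => absurd h (hU _ _), fun h => absurd h (hU _ _),
      fun h => absurd h (hU _ _), fun h => absurd h (hU _ _), ?_⟩
    rw [h5]; norm_num
  refine ⟨?_, ?_, ?_⟩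
  · apply key
    · intro t x; simp only [lay1, h]; rfl
    · intro t x; simp only [lay1, h]; rfl
    · intro t x; simp only [lay1, h]; rfl
    · intro t x; simp only [lay1, h]; rfl
    · intro t x; simp only [lay1, h]; rfl
  · apply key
    · intro t x; simp only [lay2, h]; rfl
    · intro t x; simp only [lay2, h]; rfl
    · intro t x; simp only [lay2, h]; rfl
    · intro t x; simp only [lay2, h]; rfl
    · intro t x; simp only [lay2, h]; rfl
  · constructor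
    · intro _
      simp only [col, h]
      exact hc _ _ _
    · intro _
      simp only [col, h]
      exact hc _ _ _

end Pool.Agent.W927.BM
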