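import Pool.Agent.W927.Code
import Pool.Agent.W927.BM.Main
import Pool.Agent.W927.BM.Win

set_option autoImplicit false

/-! # Rotations of the circle have no measurable solution -/

namespace Pool.Agent.W927.BM

open MeasureTheory

/-- the vector with the first two coordinates `t`, `x` -/
def emb {n : ℕ} (hn : 2 ≤ n) (t x : ℤ) : Fin n → ℤ :=
  Pi.single ⟨0, by omega⟩ t + Pi.single ⟨1, by omega⟩ x

theorem emb_add {n : ℕ} (hn : 2 ≤ n) (s t x z : ℤ) :
    emb hn (s + t) (x + z) = emb hn s x + emb hn t z := by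
  unfold emb
  rw [Pi.single_add, Pi.single_add]
  abel

theorem emb_zero {n : ℕ} (hn : 2 ≤ n) : emb hn 0 0 = 0 := by
  unfold emb; simp

theorem emb_fst {n : ℕ} (hn : 2 ≤ n) (t x : ℤ) : emb hn t x ⟨0, by omega⟩ = t := by
  unfold emb
  rw [Pi.add_apply, Pi.single_eq_same, Pi.single_eq_of_ne, add_zero]
  intro h
  have := congrArg Fin.val h
  simp at this

theorem emb_snd {n : ℕ} (hn : 2 ≤ n) (t x : ℤ) : emb hn t x ⟨1, by omega⟩ = x := by
  unfold emb
  rw [Pi.add_apply, Pi.single_eq_same, Pi.single_eq_of_ne, zero_add]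
  intro h
  have := congrArg Fin.val h
  simp at this

theorem emb_eq_zero {n : ℕ} (hn : 2 ≤ n) {t x : ℤ} (h : emb hn t x = 0) : t = 0 ∧ x = 0 := by
  constructor
  · have := emb_fst hn t x
    rw [h] at this
    exact this.symm
  · have := emb_snd hn t x
    rw [h] at this
    exact this.symm

/-- No measurable solution on the circle. -/
theorem circle_neg {n : ℕ} (hn : 2 ≤ n) {α : Fin n → TT}
    (hα : ∀ g : Fin n → ℤ, g ≠ 0 → addOrderOf (Pool.Agent.W927.lin α g) = 0) :
    ¬ ∃ f : TT → Lab, (∀ l, NullMeasurableSet (f ⁻¹' {l}) volume) ∧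
      ∀ᵐ y : TT, ∀ t x : ℤ,
        Rule (fun t' x' => f (Pool.Agent.W927.lin α (emb hn t' x') + y)) t x := by
  rintro ⟨f, hf, hR⟩
  let _ : MeasurableSpace Lab := ⊤
  have _ : DiscreteMeasurableSpace Lab := ⟨fun _ => trivial⟩
  have _ : IsProbabilityMeasure (volume : Measure TT) := ⟨by simp⟩
  have hfn : NullMeasurable f (volume : Measure TT) := by
    intro s _
    have : f ⁻¹' s = ⋃ l ∈ s, f ⁻¹' {l} := by
      ext y; simp
    rw [this]
    exact NullMeasurableSet.biUnion (Set.to_countable s) fun l _ => hf l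
  obtain ⟨g, hg, hfg⟩ := hfn.aemeasurable
  set T : ℤ → ℤ → TT → TT := fun t x y => Pool.Agent.W927.lin α (emb hn t x) + y with hT
  have hmp : ∀ t x, MeasurePreserving (T t x) volume volume := fun t x =>
    measurePreserving_add_left volume _
  refine neg TT volume T (fun y => ?_) (fun s t x z y => ?_) hmp ?_ ⟨g, fun l => ?_, ?_⟩
  · simp only [hT, emb_zero, map_zero, zero_add]
  · simp only [hT, emb_add, map_add, add_assoc]
  · refine AddCircle.ergodic_add_left.2 (hα _ ?_)
    intro h
    have := (emb_eq_zero hn h).2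
    omega
  · exact hg (measurableSet_singleton l)
  · have h1 : ∀ᵐ y : TT, ∀ t x, f (T t x y) = g (T t x y) := by
      rw [ae_all_iff]; intro t
      rw [ae_all_iff]; intro x
      exact (hmp t x).quasiMeasurePreserving.ae (p := fun y => f y = g y) hfg
    have h3 : ∀ y, (∀ t x, Rule (fun t' x' => f (T t' x' y)) t x) →
        (∀ t x, f (T t x y) = g (T t x y)) → ∀ t x, Rule (fun t' x' => g (T t' x' y)) t x := by
      intro y hy h2 t x
      have e : (fun t' x' => g (T t' x' y)) = (fun t' x' => f (T t' x' y)) :=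
        funext fun t' => funext fun x' => (h2 t' x').symm
      rw [e]
      exact hy t x
    filter_upwards [hR, h1] with y hy h2
    exact h3 y hy h2

end Pool.Agent.W927.BM
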