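import Mathlib

set_option autoImplicit false

/-!
# The classes BOREL, BAIRE and MEASURE of locally checkable labelling problems on a group
-/

namespace Pool.Agent.W927.BM

open MeasureTheory

/-- A locally checkable labelling problem on the (additively written) group `Γ`: a finite window
`W ⊆ Γ`, the finite set of labels `Fin k`, and the set `A` of allowed patterns `W → Fin k`. -/
structure LCLP (Γ : Type) where
  /-- the window -/
  W : Finset Γ
  /-- number of labels -/
  k : ℕ
  /-- allowed patterns -/
  A : Set (W → Fin k)

/-- `a` is a free Borel action of `Γ` on `X`. -/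
structure FreeBorel {Γ X : Type} [AddGroup Γ] [MeasurableSpace X] (a : Γ → X → X) : Prop where
  zero : ∀ x, a 0 x = x
  add : ∀ g h x, a (g + h) x = a g (a h x)
  meas : ∀ g, Measurable (a g)
  free : ∀ g x, a g x = x → g = 0

namespace LCLP

variable {Γ : Type} [AddGroup Γ]

/-- `f` is a labelling for the problem `P`: at every point of `X` the pattern is allowed. -/
def IsLabelling {X : Type} (P : LCLP Γ) (a : Γ → X → X) (f : X → Fin P.k) : Prop :=
  ∀ x, (fun σ : P.W => f (a σ.1 x)) ∈ P.A

/-- `P` is in the class `BOREL(Γ)`: every free Borel action of `Γ` on a standard Borel space has a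
Borel labelling. -/
def InBorel (P : LCLP Γ) : Prop :=
  ∀ (X : Type) [MeasurableSpace X] [StandardBorelSpace X] (a : Γ → X → X), FreeBorel a →
    ∃ f : X → Fin P.k, Measurable f ∧ P.IsLabelling a f

/-- `P` is in the class `BAIRE(Γ)`: every free Borel action of `Γ` on a Polish space has a labelling
all of whose fibres have the Baire property. -/
def InBaire (P : LCLP Γ) : Prop :=
  ∀ (X : Type) [TopologicalSpace X] [PolishSpace X] [MeasurableSpace X] [BorelSpace X]
    (a : Γ → X → X), FreeBorel a →
    ∃ f : X → Fin P.k, (∀ i, BaireMeasurableSet (f ⁻¹' {i})) ∧ P.IsLabelling a f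

/-- `P` is in the class `MEASURE(Γ)`: every free Borel action of `Γ` on a standard Borel space has,
for every Borel probability measure `μ`, a `μ`-measurable labelling. -/
def InMeasure (P : LCLP Γ) : Prop :=
  ∀ (X : Type) [MeasurableSpace X] [StandardBorelSpace X] (a : Γ → X → X), FreeBorel a →
    ∀ (μ : Measure X), IsProbabilityMeasure μ →
    ∃ f : X → Fin P.k, (∀ i, NullMeasurableSet (f ⁻¹' {i}) μ) ∧ P.IsLabelling a f

end LCLP

end Pool.Agent.W927.BM
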