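import Mathlib

set_option autoImplicit false

/-!
# Definitions for project BM

A local labelling problem on `ℤ²` which is solvable in the sense of Baire category for every free
Borel action, but not measurably for rotations of the circle.

Coordinates `(t, x)`: columns are the lines with fixed `t`.  The VERTEX `(t, x)` lies between the
CELL `(t, x - 1)` (below) and the cell `(t, x)` (above); the cell to its right is `(t + 1, x)`, the
cell to its left is `(t - 1, x - 1)`.  The vertex `(t, x)` has two outgoing edges: the 0-edge to the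
vertex `(t + 1, x)`, which separates the cell `(t, x - 1)` (below) from the cell `(t + 1, x)` (above),
and the 1-edge to the vertex `(t + 1, x + 1)`, which separates the cell `(t + 1, x)` (below) from the
cell `(t, x)` (above).  Its incoming edges are the 0-edge of `(t - 1, x)` and the 1-edge of
`(t - 1, x - 1)`.
-/

noncomputable section

namespace Pool.Agent.W927.BM

/-! ## walls, lines, layers -/

/-- Label of an edge: no wall, upper wall (the island is below), lower wall (the island is above). -/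
inductive W3
  | n | u | d
  deriving DecidableEq, Fintype

/-- exchange of upper and lower walls -/
def sw : W3 → W3
  | .n => .n
  | .u => .d
  | .d => .u

/-- One layer of a configuration: walls `e0`, `e1` (labels of the 0-edge and of the 1-edge),
lines `l0`, `l1` (on the same edges), part `p` and counter `q` (used at vertices of upper walls). -/
structure Lay where
  e0 : ℤ → ℤ → W3
  e1 : ℤ → ℤ → W3
  l0 : ℤ → ℤ → Bool
  l1 : ℤ → ℤ → Bool
  p : ℤ → ℤ → Bool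
  q : ℤ → ℤ → ℕ

namespace Lay

variable (A : Lay)

/-- no wall at the vertex -/
def N (t x : ℤ) : Prop :=
  A.e0 (t - 1) x = .n ∧ A.e1 (t - 1) (x - 1) = .n ∧ A.e0 t x = .n ∧ A.e1 t x = .n

/-- start vertex of an island -/
def S (t x : ℤ) : Prop :=
  A.e0 (t - 1) x = .n ∧ A.e1 (t - 1) (x - 1) = .n ∧ A.e0 t x = .d ∧ A.e1 t x = .u

/-- end vertex of an island -/
def M (t x : ℤ) : Prop :=
  A.e0 (t - 1) x = .u ∧ A.e1 (t - 1) (x - 1) = .d ∧ A.e0 t x = .n ∧ A.e1 t x = .n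

/-- an upper wall passes through the vertex -/
def U (t x : ℤ) : Prop :=
  ((A.e0 (t - 1) x = .u ∧ A.e1 (t - 1) (x - 1) = .n) ∨
    (A.e0 (t - 1) x = .n ∧ A.e1 (t - 1) (x - 1) = .u)) ∧
  ((A.e0 t x = .u ∧ A.e1 t x = .n) ∨ (A.e0 t x = .n ∧ A.e1 t x = .u))

/-- a lower wall passes through the vertex -/
def D (t x : ℤ) : Prop :=
  ((A.e0 (t - 1) x = .d ∧ A.e1 (t - 1) (x - 1) = .n) ∨
    (A.e0 (t - 1) x = .n ∧ A.e1 (t - 1) (x - 1) = .d)) ∧
  ((A.e0 t x = .d ∧ A.e1 t x = .n) ∨ (A.e0 t x = .n ∧ A.e1 t x = .d))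

/-- no line at the vertex -/
def NoLine (t x : ℤ) : Prop :=
  A.l0 (t - 1) x = false ∧ A.l1 (t - 1) (x - 1) = false ∧ A.l0 t x = false ∧ A.l1 t x = false

/-- exactly one line arrives and exactly one line leaves -/
def Line (t x : ℤ) : Prop :=
  ((A.l0 (t - 1) x = true ∧ A.l1 (t - 1) (x - 1) = false) ∨
    (A.l0 (t - 1) x = false ∧ A.l1 (t - 1) (x - 1) = true)) ∧
  ((A.l0 t x = true ∧ A.l1 t x = false) ∨ (A.l0 t x = false ∧ A.l1 t x = true))

/-- event at a vertex of an upper wall: a line ends in it or starts from it -/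
def Ev (t x : ℤ) : Prop := A.l1 (t - 1) (x - 1) = true ∨ A.l0 t x = true

/-- the rule for the pair of consecutive vertices `(t, x)` and `(t + 1, y)` of an upper wall -/
def Nx (t x y : ℤ) : Prop :=
  (A.p t x = true → A.p (t + 1) y = true) ∧ (A.Ev t x → A.q (t + 1) y = 0) ∧
    (¬ A.Ev t x → A.q (t + 1) y = A.q t x + 1)

/-- The local rule at the vertex `(t, x)`. -/
structure Loc (K : ℕ) (t x : ℤ) : Prop where
  typ : A.N t x ∨ A.S t x ∨ A.M t x ∨ A.U t x ∨ A.D t x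
  lin : A.N t x → A.NoLine t x ∨ A.Line t x
  nol : A.S t x ∨ A.M t x ∨ A.D t x → A.NoLine t x
  ul0 : A.U t x → A.l0 (t - 1) x = false
  ul1 : A.U t x → A.l1 t x = false
  ulE : A.U t x → A.l1 (t - 1) (x - 1) = true → A.e0 (t - 1) x = .u ∧ A.p t x = true
  ulS : A.U t x → A.l0 t x = true → A.e1 t x = .u ∧ A.p t x = false
  nx0 : A.U t x → A.e0 t x = .u → A.U (t + 1) x → A.Nx t x x
  nx1 : A.U t x → A.e1 t x = .u → A.U (t + 1) (x + 1) → A.Nx t x (x + 1)
  qlt : A.q t x < K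

/-- The colour of cells changes across every edge which is not a wall. -/
def ColAt (c : ℤ → ℤ → Bool) (t x : ℤ) : Prop :=
  (A.e0 t x = .n → c (t + 1) x ≠ c t (x - 1)) ∧ (A.e1 t x = .n → c (t + 1) x ≠ c t x)

open Classical in
/-- symbol of a vertex in its column: `-1` for an upper wall, `1` for a lower wall -/
def sy (t x : ℤ) : ℤ := if A.U t x then -1 else if A.D t x then 1 else 0

end Lay

/-! ## one column -/

/-- sum of `s` strictly between `a` and `b` -/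
def ds (s : ℤ → ℤ) (a b : ℤ) : ℤ := ∑ y ∈ Finset.Ioo a b, s y

/-- the cell `x` belongs to the floor of the vertex `b` -/
def Fl (s : ℤ → ℤ) (b x : ℤ) : Prop :=
  x < b ∧ ds s x b = 0 ∧ ∀ z, x ≤ z → z < b → ds s z b ≤ 0

/-- the lower wall at the vertex `a` and the upper wall at the vertex `b` are matched -/
def Mt (s : ℤ → ℤ) (a b : ℤ) : Prop := s a = 1 ∧ s b = -1 ∧ Fl s b a

/-- the cell `x` of the column `s` is not enclosed -/
def Un (s : ℤ → ℤ) (x : ℤ) : Prop := ¬ ∃ a b, Mt s a b ∧ a ≤ x ∧ x < b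

/-! ## labels -/

/-- Labels: walls `e0`, `e1`, colour, first layer `(l0, l1, p, q)`, second layer. -/
abbrev Lab : Type :=
  W3 × W3 × Bool × (Bool × Bool × Bool × Fin 512) × (Bool × Bool × Bool × Fin 512)

/-- first layer -/
def lay1 (σ : ℤ → ℤ → Lab) : Lay where
  e0 t x := (σ t x).1
  e1 t x := (σ t x).2.1
  l0 t x := (σ t x).2.2.2.1.1
  l1 t x := (σ t x).2.2.2.1.2.1
  p t x := (σ t x).2.2.2.1.2.2.1
  q t x := (σ t x).2.2.2.1.2.2.2.val

/-- second layer: the configuration is rotated by 180 degrees -/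
def lay2 (σ : ℤ → ℤ → Lab) : Lay where
  e0 t x := sw (σ (-t - 1) (-x)).1
  e1 t x := sw (σ (-t - 1) (-x - 1)).2.1
  l0 t x := (σ (-t - 1) (-x)).2.2.2.2.1
  l1 t x := (σ (-t - 1) (-x - 1)).2.2.2.2.2.1
  p t x := (σ (-t) (-x)).2.2.2.2.2.2.1
  q t x := (σ (-t) (-x)).2.2.2.2.2.2.2.val

/-- colour of a configuration -/
def col (σ : ℤ → ℤ → Lab) (t x : ℤ) : Bool := (σ t x).2.2.1

/-- The rule of the local labelling problem at `(t, x)`. -/
def Rule (σ : ℤ → ℤ → Lab) (t x : ℤ) : Prop :=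
  (lay1 σ).Loc 512 t x ∧ (lay2 σ).Loc 512 (-t) (-x) ∧ (lay1 σ).ColAt (col σ) t x

/-! ## scales and separated sets -/

/-- radius of the islands of level `k` -/
def Sk : ℕ → ℤ
  | 0 => 2 ^ 16
  | k + 1 => 2 ^ (3 * k + 48) * Sk k

/-- distance kept by all higher walls from the centres of level `k` -/
def Tk (k : ℕ) : ℤ := 2 ^ (k + 16) * Sk k

/-- separation of the centres of level `k` -/
def Rk (k : ℕ) : ℤ := 2 ^ (2 * k + 32) * Sk k

/-- sup distance -/
def dd (p q : ℤ × ℤ) : ℤ := max |p.1 - q.1| |p.2 - q.2|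

/-- `r`-separated set -/
def Sep (C : Set (ℤ × ℤ)) (r : ℤ) : Prop := ∀ p ∈ C, ∀ q ∈ C, p ≠ q → r < dd p q

/-- `v` keeps the distance `Tk i + m` from all centres of level `i < k` -/
def Far (C : ℕ → Set (ℤ × ℤ)) (k : ℕ) (m : ℤ) (v : ℤ × ℤ) : Prop :=
  ∀ i < k, ∀ z ∈ C i, Tk i + m ≤ dd v z

/-! ## islands (lenses), relative to their centre `(0, 0)` -/

/-- An island: start vertex `(t0, x0)`, end vertex `(t1, x1)`, upper wall `u`, lower wall `d`.
Its cells are the `(t, x)` with `t0 < t < t1`, `d t ≤ x < u t`. -/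
structure Lens where
  t0 : ℤ
  x0 : ℤ
  t1 : ℤ
  x1 : ℤ
  u : ℤ → ℤ
  d : ℤ → ℤ

namespace Lens

/-- the cell `(t, x)` belongs to the island -/
def In (I : Lens) (t x : ℤ) : Prop := I.t0 < t ∧ t < I.t1 ∧ I.d t ≤ x ∧ x < I.u t

/-- rotation by 180 degrees -/
def rot (I : Lens) : Lens where
  t0 := -I.t1
  x0 := -I.x1
  t1 := -I.t0
  x1 := -I.x0
  u t := -I.d (-t)
  d t := -I.u (-t)

/-- first term of the boundary value at the top cell `(t, u t - 1)` -/
def xt (I : Lens) (t : ℤ) : ℤ := (I.u t - 1 - I.x0) / 32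

/-- second term of the boundary value at the top cell `(t, u t - 1)` -/
def yt (I : Lens) (t : ℤ) : ℤ := (I.u t - 1 - t - (I.x1 - I.t1)) / 32

/-- boundary value at the top cell `(t, u t - 1)` -/
def B (I : Lens) (t : ℤ) : ℤ := min (I.xt t) (I.yt t)

/-- event at the vertex `(t, u t)` -/
def Ev (I : Lens) (t : ℤ) : Prop :=
  (I.u (t - 1) = I.u t ∧ I.B (t - 1) = I.B t + 1) ∨ (I.u (t + 1) = I.u t + 1 ∧ I.B (t + 1) = I.B t + 1)

/-- Good island of level `k` with respect to the centres `C i`, `i < k`. -/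
structure OK (I : Lens) (k : ℕ) (C : ℕ → Set (ℤ × ℤ)) : Prop where
  t0_neg : I.t0 < 0
  t1_pos : 0 < I.t1
  d_zero : I.d 0 < 0
  u_zero : 0 < I.u 0
  long : I.t0 + 128 ≤ I.t1
  ut0 : I.u I.t0 = I.x0
  dt0 : I.d I.t0 = I.x0
  ut1 : I.u I.t1 = I.x1
  dt1 : I.d I.t1 = I.x1
  ut0' : I.u (I.t0 + 1) = I.x0 + 1
  dt0' : I.d (I.t0 + 1) = I.x0
  ut1' : I.u (I.t1 - 1) = I.x1
  dt1' : I.d (I.t1 - 1) = I.x1 - 1
  ustep : ∀ t, I.t0 ≤ t → t < I.t1 → I.u (t + 1) = I.u t ∨ I.u (t + 1) = I.u t + 1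
  dstep : ∀ t, I.t0 ≤ t → t < I.t1 → I.d (t + 1) = I.d t ∨ I.d (t + 1) = I.d t + 1
  lt : ∀ t, I.t0 < t → t < I.t1 → I.d t < I.u t
  bt0 : -Sk k ≤ I.t0
  bt1 : I.t1 ≤ Sk k
  bu : ∀ t, I.t0 ≤ t → t ≤ I.t1 → |I.u t| ≤ Sk k
  bd : ∀ t, I.t0 ≤ t → t ≤ I.t1 → |I.d t| ≤ Sk k
  us1 : ∀ s t, I.t0 ≤ s → s ≤ t → t ≤ I.t1 → t - s ≤ 4 * (I.u t - I.u s) + 4
  us2 : ∀ s t, I.t0 ≤ s → s ≤ t → t ≤ I.t1 → 4 * (I.u t - I.u s) ≤ 3 * (t - s) + 4
  ds1 : ∀ s t, I.t0 ≤ s → s ≤ t → t ≤ I.t1 → t - s ≤ 4 * (I.d t - I.d s) + 4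
  ds2 : ∀ s t, I.t0 ≤ s → s ≤ t → t ≤ I.t1 → 4 * (I.d t - I.d s) ≤ 3 * (t - s) + 4
  ubase : ∀ t, I.t0 ≤ t → t ≤ I.t1 →
    min (8 * I.x0 + 5 * (t - I.t0)) (8 * I.x1 - 3 * (I.t1 - t)) ≤ 8 * I.u t + 8
  dbase : ∀ t, I.t0 ≤ t → t ≤ I.t1 →
    8 * I.d t - 8 ≤ max (8 * I.x0 + 3 * (t - I.t0)) (8 * I.x1 - 5 * (I.t1 - t))
  bal : 16 * |2 * (I.x1 - I.x0) - (I.t1 - I.t0)| ≤ I.t1 - I.t0
  ufar : ∀ t, I.t0 ≤ t → t ≤ I.t1 → Far C k 2 (t, I.u t)
  dfar : ∀ t, I.t0 ≤ t → t ≤ I.t1 → Far C k 2 (t, I.d t)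

/-- Good line data for the island: `b` is the height on the cells, `q` the counter. -/
structure Route (I : Lens) (k : ℕ) (C : ℕ → Set (ℤ × ℤ)) (b : ℤ → ℤ → ℤ) (q : ℤ → ℕ) :
    Prop where
  e_lo : ∀ t x, b t (x - 1) ≤ b (t + 1) x
  e_hi : ∀ t x, b (t + 1) x ≤ b t (x - 1) + 1
  n_lo : ∀ t x, b (t + 1) x ≤ b t x
  n_hi : ∀ t x, b t x ≤ b (t + 1) x + 1
  ne_hi : ∀ t x, b t x ≤ b t (x - 1) + 1
  const : ∀ i < k, ∀ z ∈ C i, dd z (0, 0) ≤ 2 * Sk k → ∀ v w : ℤ × ℤ, dd v z ≤ Sk i + 2 →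
    dd w z ≤ Sk i + 2 → Far C i 0 v → Far C i 0 w → b v.1 v.2 = b w.1 w.2
  low : ∀ t, I.t0 < t → t < I.t1 → b t (I.d t) = 0
  up : ∀ t, I.t0 < t → t < I.t1 → b t (I.u t - 1) = I.B t
  qlt : ∀ t, q t < 512
  qev : ∀ t, I.t0 < t → t + 1 < I.t1 → I.Ev t → q (t + 1) = 0
  qnev : ∀ t, I.t0 < t → t + 1 < I.t1 → ¬ I.Ev t → q (t + 1) = q t + 1

end Lens

/-- complete data of an island: the lens, the height and counter of the first layer, and those of
the second layer (in rotated coordinates) -/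
structure IData where
  I : Lens
  b1 : ℤ → ℤ → ℤ
  q1 : ℤ → ℕ
  b2 : ℤ → ℤ → ℤ
  q2 : ℤ → ℕ

/-- family of centres rotated by 180 degrees -/
def negC (C : ℕ → Set (ℤ × ℤ)) : ℕ → Set (ℤ × ℤ) := fun i => {z | -z ∈ C i}

/-- family of centres seen from the centre `w` -/
def shC (C : ℕ → Set (ℤ × ℤ)) (w : ℤ × ℤ) : ℕ → Set (ℤ × ℤ) := fun i => {z | z + w ∈ C i}

/-- complete data are good -/
structure IData.OK (D : IData) (k : ℕ) (C : ℕ → Set (ℤ × ℤ)) : Prop where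
  ok : D.I.OK k C
  r1 : D.I.Route k C D.b1 D.q1
  r2 : D.I.rot.Route k (negC C) D.b2 D.q2

/-! ## the layer defined by a family of islands -/

/-- label of an edge from the levels of the cells below and above it -/
def cmpL (i j : ℕ) : W3 := if i = j then .n else if i < j then .u else .d

/-- lens, height and counter (one layer) -/
structure LData where
  I : Lens
  b : ℤ → ℤ → ℤ
  q : ℤ → ℕ

open Classical in
/-- The layer of a family: `lev t x`, `cen t x` are the level and the centre of the innermost island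
containing the cell `(t, x)`, `dat k z` are the data of the island of level `k` with centre `z`. -/
def famLay (lev : ℤ → ℤ → ℕ) (cen : ℤ → ℤ → ℤ × ℤ) (dat : ℕ → ℤ × ℤ → LData) :
    Lay where
  e0 t x := cmpL (lev t (x - 1)) (lev (t + 1) x)
  e1 t x := cmpL (lev (t + 1) x) (lev t x)
  l0 t x := decide (lev t (x - 1) = lev (t + 1) x ∧
    (dat (lev (t + 1) x) (cen (t + 1) x)).b (t + 1 - (cen (t + 1) x).1) (x - (cen (t + 1) x).2) =
      (dat (lev t (x - 1)) (cen t (x - 1))).b (t - (cen t (x - 1)).1) (x - 1 - (cen t (x - 1)).2) + 1)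
  l1 t x := decide (lev (t + 1) x = lev t x ∧
    (dat (lev t x) (cen t x)).b (t - (cen t x).1) (x - (cen t x).2) =
      (dat (lev (t + 1) x) (cen (t + 1) x)).b (t + 1 - (cen (t + 1) x).1)
        (x - (cen (t + 1) x).2) + 1)
  p t x := decide ((dat (lev t (x - 1)) (cen t (x - 1))).I.yt (t - (cen t (x - 1)).1) ≤
    (dat (lev t (x - 1)) (cen t (x - 1))).I.xt (t - (cen t (x - 1)).1))
  q t x := (dat (lev t (x - 1)) (cen t (x - 1))).q (t - (cen t (x - 1)).1)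

end Pool.Agent.W927.BM

end
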