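import Pool.Agent.W927.BM.Stm

set_option autoImplicit false

/-! # Elementary lemmas about one column -/

noncomputable section

namespace Pool.Agent.W927.BM

open MeasureTheory

theorem ds_pred (s : ℤ → ℤ) {a b : ℤ} (h : a < b) : ds s (a - 1) b = s a + ds s a b := by
  unfold ds
  have : Finset.Ioo (a-1) b = insert a (Finset.Ioo a b) := by
    ext z; simp only [Finset.mem_Ioo, Finset.mem_insert]; omega
  rw [this, Finset.sum_insert (by simp)]

theorem ds_split (s : ℤ → ℤ) {a w b : ℤ} (h1 : a < w) (h2 : w ≤ b) :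
    ds s a b = ds s a w + ds s (w - 1) b := by
  unfold ds
  have : Finset.Ioo a b = Finset.Ioo a w ∪ Finset.Ioo (w-1) b := by
    ext z; simp only [Finset.mem_Ioo, Finset.mem_union]; omega
  rw [this, Finset.sum_union]
  rw [Finset.disjoint_left]
  intro z hz hz'
  simp only [Finset.mem_Ioo] at hz hz'
  omega

theorem ds_neg (s : ℤ → ℤ) (a b : ℤ) : ds (fun j => - s (-j)) a b = - ds s (-b) (-a) := by
  unfold ds
  rw [← Finset.sum_neg_distrib]
  refine Finset.sum_nbij' (fun z => -z) (fun z => -z) ?_ ?_ ?_ ?_ ?_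
  · intro z hz; simp only [Finset.mem_Ioo] at hz ⊢; omega
  · intro z hz; simp only [Finset.mem_Ioo] at hz ⊢; omega
  · intro z _; simp
  · intro z _; simp
  · intro z _; simp

theorem ds_shift (s : ℤ → ℤ) (i a b : ℤ) : ds (fun j => s (j + i)) a b = ds s (a + i) (b + i) := by
  unfold ds
  refine Finset.sum_nbij' (fun z => z + i) (fun z => z - i) ?_ ?_ ?_ ?_ ?_
  · intro z hz; simp only [Finset.mem_Ioo] at hz ⊢; omega
  · intro z hz; simp only [Finset.mem_Ioo] at hz ⊢; omega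
  · intro z _; simp
  · intro z _; simp
  · intro z _; simp

theorem Fl_shift (s : ℤ → ℤ) (i b x : ℤ) : Fl (fun j => s (j + i)) b x ↔ Fl s (b + i) (x + i) := by
  unfold Fl
  rw [ds_shift]
  constructor
  · rintro ⟨h1, h2, h3⟩
    refine ⟨by omega, h2, fun z hz1 hz2 => ?_⟩
    have := h3 (z - i) (by omega) (by omega)
    rw [ds_shift] at this
    simpa using this
  · rintro ⟨h1, h2, h3⟩
    refine ⟨by omega, h2, fun z hz1 hz2 => ?_⟩
    rw [ds_shift]
    exact h3 _ (by omega) (by omega)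

theorem Mt_shift (s : ℤ → ℤ) (i a b : ℤ) : Mt (fun j => s (j + i)) a b ↔ Mt s (a + i) (b + i) := by
  unfold Mt
  rw [Fl_shift]

theorem Un_shift (s : ℤ → ℤ) (i x : ℤ) : Un (fun j => s (j + i)) x ↔ Un s (x + i) := by
  unfold Un
  refine not_congr ⟨?_, ?_⟩
  · rintro ⟨a, b, h, h1, h2⟩
    exact ⟨a + i, b + i, (Mt_shift _ _ _ _).1 h, by omega, by omega⟩
  · rintro ⟨a, b, h, h1, h2⟩
    refine ⟨a - i, b - i, (Mt_shift _ _ _ _).2 ?_, by omega, by omega⟩
    simpa using h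

theorem Mt_unique {s : ℤ → ℤ} {a a' b : ℤ} (h : Mt s a b) (h' : Mt s a' b) : a = a' := by
  have key : ∀ {a a' : ℤ}, Mt s a b → Mt s a' b → ¬ a < a' := by
    intro a a' h h' hlt
    have h1 := h.2.2.2.2 (a' - 1) (by omega) (by have := h'.2.2.1; omega)
    rw [ds_pred s h'.2.2.1, h'.1, h'.2.2.2.1] at h1
    omega
  rcases lt_trichotomy a a' with hlt | heq | hgt
  · exact absurd hlt (key h h')
  · exact heq
  · exact absurd hgt (key h' h)

theorem Mt_neg' {s : ℤ → ℤ} {a b : ℤ} (h : Mt s (-b) (-a)) : Mt (fun j => - s (-j)) a b := by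
  obtain ⟨h1, h2, h3, h4, h5⟩ := h
  refine ⟨by simp [h2], by simp [h1], by omega, ?_, ?_⟩
  · rw [ds_neg, h4]; simp
  · intro z hz1 hz2
    rw [ds_neg]
    have := ds_split s (a := -b) (w := -z) (b := -a) (by omega) (by omega)
    have h6 := h5 (-z - 1) (by omega) (by omega)
    omega

theorem Mt_neg {s : ℤ → ℤ} {a b : ℤ} : Mt (fun j => - s (-j)) a b ↔ Mt s (-b) (-a) := by
  refine ⟨fun h => ?_, Mt_neg'⟩
  have := Mt_neg' (s := fun j => - s (-j)) (a := -b) (b := -a) (by simpa using h)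
  simpa using this

/-! ## symmetry of the two layers -/

theorem sw_n {w : W3} : sw w = .n ↔ w = .n := by cases w <;> simp [sw]
theorem sw_u {w : W3} : sw w = .u ↔ w = .d := by cases w <;> simp [sw]
theorem sw_d {w : W3} : sw w = .d ↔ w = .u := by cases w <;> simp [sw]

theorem lay2_e0 (σ : ℤ → ℤ → Lab) (t x : ℤ) : (lay2 σ).e0 t x = sw ((lay1 σ).e0 (-t - 1) (-x)) := rfl
theorem lay2_e1 (σ : ℤ → ℤ → Lab) (t x : ℤ) :
    (lay2 σ).e1 t x = sw ((lay1 σ).e1 (-t - 1) (-x - 1)) := rfl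
theorem lay2_e0' (σ : ℤ → ℤ → Lab) (t x : ℤ) : (lay2 σ).e0 (t - 1) x = sw ((lay1 σ).e0 (-t) (-x)) := by
  rw [lay2_e0]; congr 2; ring
theorem lay2_e1' (σ : ℤ → ℤ → Lab) (t x : ℤ) :
    (lay2 σ).e1 (t - 1) (x - 1) = sw ((lay1 σ).e1 (-t) (-x)) := by
  rw [lay2_e1]; congr 2 <;> ring

theorem lay2_U (σ : ℤ → ℤ → Lab) (t x : ℤ) : (lay2 σ).U t x ↔ (lay1 σ).D (-t) (-x) := by
  unfold Lay.U Lay.D
  rw [lay2_e0', lay2_e1', lay2_e0, lay2_e1]
  simp only [sw_n, sw_u]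
  tauto

theorem lay2_D (σ : ℤ → ℤ → Lab) (t x : ℤ) : (lay2 σ).D t x ↔ (lay1 σ).U (-t) (-x) := by
  unfold Lay.U Lay.D
  rw [lay2_e0', lay2_e1', lay2_e0, lay2_e1]
  simp only [sw_n, sw_d]
  tauto

theorem not_U_D (A : Lay) (t x : ℤ) : ¬ (A.U t x ∧ A.D t x) := by
  rintro ⟨⟨h1, h2⟩, ⟨h3, h4⟩⟩
  rcases h1 with h1 | h1 <;> rcases h3 with h3 | h3 <;> simp [h1.1, h1.2] at h3

theorem lay2_sy (σ : ℤ → ℤ → Lab) (t x : ℤ) : (lay2 σ).sy t x = - (lay1 σ).sy (-t) (-x) := by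
  unfold Lay.sy
  rw [lay2_U, lay2_D]
  by_cases h1 : (lay1 σ).U (-t) (-x) <;> by_cases h2 : (lay1 σ).D (-t) (-x)
  · exact absurd ⟨h1, h2⟩ (not_U_D _ _ _)
  · simp [h1, h2]
  · simp [h1, h2]
  · simp [h1, h2]

theorem lay2_ColAt (σ : ℤ → ℤ → Lab) (h : ∀ t x, (lay1 σ).ColAt (col σ) t x) (t x : ℤ) :
    (lay2 σ).ColAt (fun t x => col σ (-t) (-x - 1)) t x := by
  have h' := h (-t - 1) (-x)
  have h'' := h (-t - 1) (-x - 1)
  unfold Lay.ColAt at h' h'' ⊢
  rw [lay2_e0, lay2_e1, sw_n, sw_n]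
  refine ⟨fun he => ?_, fun he => ?_⟩
  · have := h'.1 he
    intro hc
    apply this
    have hc' : col σ (-(t + 1)) (-x - 1) = col σ (-t) (-(x - 1) - 1) := hc
    rw [show -(t + 1) = -t - 1 by ring, show -(x - 1) - 1 = -x by ring] at hc'
    rw [show -t - 1 + 1 = -t by ring]
    exact hc'.symm
  · have := h''.2 he
    intro hc
    apply this
    have hc' : col σ (-(t + 1)) (-x - 1) = col σ (-t) (-x - 1) := hc
    rw [show -(t + 1) = -t - 1 by ring] at hc'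
    rw [show -t - 1 + 1 = -t by ring]
    exact hc'.symm

end Pool.Agent.W927.BM

end
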