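import Pool.Agent.W927.BM.Cls
import Pool.Agent.W927.BM.Circ

set_option autoImplicit false

/-! # The labelling problem on `ℤⁿ` -/

noncomputable section

namespace Pool.Agent.W927.BM

open MeasureTheory

section

variable {n : ℕ} (hn : 2 ≤ n)

/-- the window -/
def winN : Finset (Fin n → ℤ) :=
  (Finset.Icc (-2 : ℤ) 2 ×ˢ Finset.Icc (-2 : ℤ) 2).image (fun p => emb hn p.1 p.2)

theorem mem_winN {t x : ℤ} (ht : |t| ≤ 2) (hx : |x| ≤ 2) : emb hn t x ∈ winN hn := by
  rw [abs_le] at ht hx
  exact Finset.mem_image.2 ⟨(t, x), by simp only [Finset.mem_product, Finset.mem_Icc]; omega, rfl⟩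

open Classical in
/-- configuration on the grid from a window -/
def extN {k : ℕ} (e : Fin k ≃ Lab) (w : winN hn → Fin k) (t x : ℤ) : Lab :=
  if h : emb hn t x ∈ winN hn then e (w ⟨emb hn t x, h⟩) else chk false

theorem extN_eq {k : ℕ} (e : Fin k ≃ Lab) (w : winN hn → Fin k) {t x : ℤ} (ht : |t| ≤ 2)
    (hx : |x| ≤ 2) : extN hn e w t x = e (w ⟨emb hn t x, mem_winN hn ht hx⟩) := by
  unfold extN
  rw [dif_pos (mem_winN hn ht hx)]

variable {k : ℕ} (eLab : Fin k ≃ Lab)

/-- the labelling problem -/
def PBM : LCLP (Fin n → ℤ) where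
  W := winN hn
  k := k
  A := {w | Rule (extN hn eLab w) 0 0}

theorem PBM_iff {X : Type} {a : (Fin n → ℤ) → X → X}
    (hadd : ∀ g h x, a (g + h) x = a g (a h x)) (f : X → Fin k) :
    (PBM hn eLab).IsLabelling a f ↔
      ∀ y t x, Rule (fun t' x' => eLab (f (a (emb hn t' x') y))) t x := by
  constructor
  · intro h y t x
    have h1 : Rule (extN hn eLab fun σ => f (a σ.1 (a (emb hn t x) y))) 0 0 := h _
    refine Rule_congr (t := 0) (x := 0) (t' := t) (x' := x) ?_ h1
    intro s z hs hz
    rw [zero_add, zero_add, extN_eq hn eLab _ hs hz]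
    change eLab (f (a (emb hn s z) (a (emb hn t x) y))) = eLab (f (a (emb hn (t + s) (x + z)) y))
    rw [← hadd, ← emb_add, add_comm s t, add_comm z x]
  · intro h y
    change Rule (extN hn eLab fun σ => f (a σ.1 y)) 0 0
    refine Rule_congr (t := 0) (x := 0) (t' := 0) (x' := 0) ?_ (h y 0 0)
    intro s z hs hz
    rw [zero_add, zero_add, extN_eq hn eLab _ hs hz]

/-! ## a section of a free action -/

theorem exists_cocycle {Γ X : Type} [AddGroup Γ] {a : Γ → X → X} (h0 : ∀ x, a 0 x = x)
    (hadd : ∀ g h x, a (g + h) x = a g (a h x)) (hfree : ∀ g x, a g x = x → g = 0) :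
    ∃ γ : X → Γ, ∀ h y, γ (a h y) = h + γ y := by
  classical
  let s : Setoid X :=
    { r := fun x y => ∃ g, a g x = y
      iseqv :=
        { refl := fun x => ⟨0, h0 x⟩
          symm := by
            rintro x y ⟨g, rfl⟩
            exact ⟨-g, by rw [← hadd, neg_add_cancel, h0]⟩
          trans := by
            rintro x y z ⟨g, rfl⟩ ⟨h, rfl⟩
            exact ⟨h + g, by rw [hadd]⟩ } }
  let r : X → X := fun y => (Quotient.mk s y).out
  have hr : ∀ y, ∃ g, a g (r y) = y := by
    intro y
    have : s.r (r y) y := Quotient.exact (Quotient.out_eq (Quotient.mk s y))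
    exact this
  have hr' : ∀ h y, r (a h y) = r y := by
    intro h y
    have : Quotient.mk s (a h y) = Quotient.mk s y :=
      Quotient.sound ⟨-h, by rw [← hadd, neg_add_cancel, h0]⟩
    change (Quotient.mk s (a h y)).out = (Quotient.mk s y).out
    rw [this]
  choose γ hγ using hr
  refine ⟨γ, fun h y => ?_⟩
  have h1 : a (γ (a h y)) (r y) = a h y := by
    have := hγ (a h y)
    rwa [hr'] at this
  have h2 : a (h + γ y) (r y) = a h y := by rw [hadd, hγ]
  have h3 : a (-(h + γ y) + γ (a h y)) (r y) = r y := by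
    rw [hadd, h1, ← h2, ← hadd, neg_add_cancel, h0]
  have h4 := hfree _ _ h3
  rw [neg_add_eq_zero] at h4
  exact h4.symm

theorem PBM_inBaire : (PBM hn eLab).InBaire := by
  classical
  intro X _ _ _ _ a ha
  set T : ℤ → ℤ → X → X := fun t x => a (emb hn t x) with hT
  have T0 : ∀ y, T 0 0 y = y := fun y => by simp only [hT, emb_zero, ha.zero]
  have Tadd : ∀ s t x z y, T (s + t) (x + z) y = T s x (T t z y) := fun s t x z y => by
    simp only [hT, emb_add, ha.add]
  obtain ⟨f, G, hf, hG, hGinv, hGres, hGR⟩ := pos X T T0 Tadd (fun t x => ha.meas _)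
    (fun t x y h => emb_eq_zero hn (ha.free _ _ h))
  obtain ⟨γ, hγ⟩ := exists_cocycle ha.zero ha.add ha.free
  let c : X → Bool := fun y => decide (γ y ⟨0, by omega⟩ % 2 = 0)
  have hGinv' : ∀ t x y, y ∉ G → T t x y ∉ G := by
    intro t x y hy h
    apply hy
    have h1 := hGinv (-t) (-x) _ h
    rwa [← Tadd, neg_add_cancel, neg_add_cancel, T0] at h1
  refine ⟨fun y => eLab.symm (if y ∈ G then f y else chk (c y)), ?_, ?_⟩
  · intro i
    have h1 : BaireMeasurableSet (f ⁻¹' {eLab i}) := (hf _).baireMeasurableSet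
    refine h1.congr ?_
    filter_upwards [hGres] with y hy
    refine propext ?_
    change f y = eLab i ↔ eLab.symm (if y ∈ G then f y else chk (c y)) = i
    rw [if_pos hy]
    exact (Equiv.symm_apply_eq eLab).symm
  · rw [PBM_iff hn eLab ha.add]
    intro y t x
    simp only [Equiv.apply_symm_apply]
    by_cases hy : y ∈ G
    · have e : (fun t' x' => if a (emb hn t' x') y ∈ G then f (a (emb hn t' x') y) else
          chk (c (a (emb hn t' x') y))) = fun t' x' => f (T t' x' y) := by
        funext t' x'
        rw [if_pos (hGinv t' x' y hy)]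
      rw [e]
      exact hGR y hy t x
    · have e : (fun t' x' => if a (emb hn t' x') y ∈ G then f (a (emb hn t' x') y) else
          chk (c (a (emb hn t' x') y))) = fun t' x' => chk (c (a (emb hn t' x') y)) := by
        funext t' x'
        rw [if_neg (hGinv' t' x' y hy)]
      rw [e]
      refine chk_rule (c := fun t' x' => c (a (emb hn t' x') y)) (fun _ _ => rfl) ?_ t x
      intro t x z h
      simp only [c, hγ, Pi.add_apply, emb_fst, decide_eq_decide] at h
      omega

theorem PBM_not_inMeasure : ¬ (PBM hn eLab).InMeasure := by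
  intro H
  obtain ⟨α, hα⟩ := Pool.Agent.W927.exists_alpha n
  let a : (Fin n → ℤ) → TT → TT := fun g y => Pool.Agent.W927.lin α g + y
  have ha : FreeBorel a := by
    refine ⟨?_, ?_, ?_, ?_⟩
    · intro x
      simp only [a, map_zero, zero_add]
    · intro g h x
      simp only [a, map_add, add_assoc]
    · exact fun g => measurable_const_add _
    · intro g x h
      by_contra hg
      have h1 : Pool.Agent.W927.lin α g = 0 := by
        have : Pool.Agent.W927.lin α g + x = x := h
        simpa using this
      have h2 := hα g hg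
      rw [h1, addOrderOf_zero] at h2
      exact one_ne_zero h2
  obtain ⟨f, hf, hfP⟩ := H TT a ha volume ⟨by simp⟩
  refine circle_neg hn hα ⟨fun y => eLab (f y), ?_, ?_⟩
  · intro l
    have : (fun y => eLab (f y)) ⁻¹' {l} = f ⁻¹' {eLab.symm l} := by
      ext y
      simp only [Set.mem_preimage, Set.mem_singleton_iff]
      exact (Equiv.eq_symm_apply eLab).symm
    rw [this]
    exact hf _
  · refine Filter.Eventually.of_forall fun y => ?_
    exact (PBM_iff hn eLab ha.add f).1 hfP y

end

end Pool.Agent.W927.BM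

end
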