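import Pool.Agent.W927.BM.Neg0

set_option autoImplicit false
set_option linter.unusedSimpArgs false

/-! # The category half of project BM, deterministic part -/

noncomputable section

namespace Pool.Agent.W927.BM

theorem dd_neg (p q : ℤ × ℤ) : dd (-p) (-q) = dd p q := by
  unfold dd
  simp only [Prod.fst_neg, Prod.snd_neg]
  rw [show -p.1 - -q.1 = -(p.1 - q.1) by ring, show -p.2 - -q.2 = -(p.2 - q.2) by ring, abs_neg,
    abs_neg]

theorem Far_neg {C : ℕ → Set (ℤ × ℤ)} {k : ℕ} {m : ℤ} {v : ℤ × ℤ} (h : Far C k m (-v)) :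
    Far (negC C) k m v := by
  intro i hi z hz
  have := h i hi (-z) hz
  rwa [dd_neg] at this

theorem Lens.OK.rot {I : Lens} {k : ℕ} {C : ℕ → Set (ℤ × ℤ)} (h : I.OK k C) :
    I.rot.OK k (negC C) := by
  have e1 : ∀ t, I.rot.u t = -I.d (-t) := fun _ => rfl
  have e2 : ∀ t, I.rot.d t = -I.u (-t) := fun _ => rfl
  have e3 : I.rot.t0 = -I.t1 := rfl
  have e4 : I.rot.t1 = -I.t0 := rfl
  have e5 : I.rot.x0 = -I.x1 := rfl
  have e6 : I.rot.x1 = -I.x0 := rfl
  constructor
  · rw [e3]; have := h.t1_pos; omega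
  · rw [e4]; have := h.t0_neg; omega
  · rw [e2]; have := h.u_zero; rw [neg_zero]; omega
  · rw [e1]; have := h.d_zero; rw [neg_zero]; omega
  · rw [e3, e4]; have := h.long; omega
  · rw [e3, e1, e5, neg_neg, h.dt1]
  · rw [e3, e2, e5, neg_neg, h.ut1]
  · rw [e4, e1, e6, neg_neg, h.dt0]
  · rw [e4, e2, e6, neg_neg, h.ut0]
  · rw [e3, e1, e5, show -(-I.t1 + 1) = I.t1 - 1 by ring, h.dt1']; ring
  · rw [e3, e2, e5, show -(-I.t1 + 1) = I.t1 - 1 by ring, h.ut1']
  · rw [e4, e1, e6, show -(-I.t0 - 1) = I.t0 + 1 by ring, h.dt0']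
  · rw [e4, e2, e6, show -(-I.t0 - 1) = I.t0 + 1 by ring, h.ut0']; ring
  · intro t h1 h2
    rw [e1, e1]
    have := h.dstep (-(t + 1)) (by omega) (by omega)
    rw [show -(t + 1) + 1 = -t by ring] at this
    omega
  · intro t h1 h2
    rw [e2, e2]
    have := h.ustep (-(t + 1)) (by omega) (by omega)
    rw [show -(t + 1) + 1 = -t by ring] at this
    omega
  · intro t h1 h2
    rw [e1, e2]
    have := h.lt (-t) (by omega) (by omega)
    omega
  · rw [e3]; have := h.bt1; omega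
  · rw [e4]; have := h.bt0; omega
  · intro t h1 h2
    rw [e1, abs_neg]
    exact h.bd (-t) (by omega) (by omega)
  · intro t h1 h2
    rw [e2, abs_neg]
    exact h.bu (-t) (by omega) (by omega)
  · intro s t h1 h2 h3
    rw [e1, e1]
    have := h.ds1 (-t) (-s) (by omega) (by omega) (by omega)
    omega
  · intro s t h1 h2 h3
    rw [e1, e1]
    have := h.ds2 (-t) (-s) (by omega) (by omega) (by omega)
    omega
  · intro s t h1 h2 h3
    rw [e2, e2]
    have := h.us1 (-t) (-s) (by omega) (by omega) (by omega)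
    omega
  · intro s t h1 h2 h3
    rw [e2, e2]
    have := h.us2 (-t) (-s) (by omega) (by omega) (by omega)
    omega
  · intro t h1 h2
    rw [e1, e3, e4, e5, e6]
    have := h.dbase (-t) (by omega) (by omega)
    omega
  · intro t h1 h2
    rw [e2, e3, e4, e5, e6]
    have := h.ubase (-t) (by omega) (by omega)
    omega
  · rw [e3, e4, e5, e6, show 2 * (-I.x0 - -I.x1) - (-I.t0 - -I.t1) = 2 * (I.x1 - I.x0) - (I.t1 - I.t0)
      by ring]
    have := h.bal
    omega
  · intro t h1 h2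
    apply Far_neg
    have := h.dfar (-t) (by omega) (by omega)
    rw [e1]
    simpa using this
  · intro t h1 h2
    apply Far_neg
    have := h.ufar (-t) (by omega) (by omega)
    rw [e2]
    simpa using this

theorem Sk_pos (k : ℕ) : 0 < Sk k := by
  induction k with
  | zero => norm_num [Sk]
  | succ k ih => rw [Sk]; positivity

theorem Sk_ge (k : ℕ) : 2 ^ 16 ≤ Sk k := by
  induction k with
  | zero => norm_num [Sk]
  | succ k ih =>
    rw [Sk]
    have h1 : (1 : ℤ) ≤ 2 ^ (3 * k + 48) := one_le_pow₀ (by norm_num)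
    nlinarith [Sk_pos k]

theorem Tk_lt_Sk {i k : ℕ} (h : i < k) : 2 ^ 8 * Tk i ≤ Sk k := by
  induction k with
  | zero => omega
  | succ k ih =>
    rcases Nat.lt_succ_iff_lt_or_eq.1 h with h | h
    · have := ih h
      rw [Sk]
      have h1 : (1 : ℤ) ≤ 2 ^ (3 * k + 48) := one_le_pow₀ (by norm_num)
      nlinarith [Sk_pos k]
    · subst h
      rw [Sk, Tk]
      have h1 : (2 : ℤ) ^ 8 * 2 ^ (i + 16) ≤ 2 ^ (3 * i + 48) := by
        rw [← pow_add]
        exact pow_le_pow_right₀ (by norm_num) (by omega)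
      nlinarith [Sk_pos i]

theorem Rk_ge (k : ℕ) : 2 ^ 32 * Sk k ≤ Rk k := by
  rw [Rk]
  have h1 : (2 : ℤ) ^ 32 ≤ 2 ^ (2 * k + 32) := pow_le_pow_right₀ (by norm_num) (by omega)
  nlinarith [Sk_pos k]

/-- Only the centres in the window matter. -/
theorem Lens.OK.mono {I : Lens} {k : ℕ} {C C' : ℕ → Set (ℤ × ℤ)} (h : I.OK k C)
    (hC : ∀ i < k, ∀ z ∈ C' i, dd z (0, 0) ≤ 4 * Sk k → z ∈ C i) : I.OK k C' := by
  have key : ∀ v : ℤ × ℤ, |v.1| ≤ Sk k → |v.2| ≤ Sk k → Far C k 2 v → Far C' k 2 v := by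
    intro v h1 h2 hf i hi z hz
    by_cases hz' : dd z (0, 0) ≤ 4 * Sk k
    · exact hf i hi z (hC i hi z hz hz')
    · have h3 := Tk_lt_Sk hi
      have h4 : 0 < Tk i := by rw [Tk]; have := Sk_pos i; positivity
      have h5 := Sk_ge k
      unfold dd at hz' ⊢
      simp only [sub_zero, not_le, lt_max_iff] at hz'
      rcases hz' with hz' | hz'
      · refine le_max_of_le_left ?_
        have : |z.1| ≤ |v.1 - z.1| + |v.1| := by
          have := abs_sub_abs_le_abs_sub z.1 v.1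
          rw [abs_sub_comm]; linarith
        omega
      · refine le_max_of_le_right ?_
        have : |z.2| ≤ |v.2 - z.2| + |v.2| := by
          have := abs_sub_abs_le_abs_sub z.2 v.2
          rw [abs_sub_comm]; linarith
        omega
  have kt : ∀ t, I.t0 ≤ t → t ≤ I.t1 → |t| ≤ Sk k := by
    intro t h1 h2
    rw [abs_le]
    have := h.bt0
    have := h.bt1
    omega
  exact { h with
    ufar := fun t h1 h2 => key _ (kt t h1 h2) (h.bu t h1 h2) (h.ufar t h1 h2)
    dfar := fun t h1 h2 => key _ (kt t h1 h2) (h.bd t h1 h2) (h.dfar t h1 h2) }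

theorem Lens.Route.mono {I : Lens} {k : ℕ} {C C' : ℕ → Set (ℤ × ℤ)} {b : ℤ → ℤ → ℤ} {q : ℤ → ℕ}
    (h : I.Route k C b q)
    (hC : ∀ i < k, ∀ z ∈ C' i, dd z (0, 0) ≤ 4 * Sk k → z ∈ C i)
    (hC' : ∀ i < k, C i ⊆ C' i) : I.Route k C' b q := by
  refine { h with const := ?_ }
  intro i hi z hz hz' v w hv hw fv fw
  refine h.const i hi z (hC i hi z hz (by have := Sk_pos k; omega)) hz' v w hv hw ?_ ?_
  · intro j hj z hz; exact fv j hj z (hC' j (by omega) hz)
  · intro j hj z hz; exact fw j hj z (hC' j (by omega) hz)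

theorem IData.OK.mono {D : IData} {k : ℕ} {C C' : ℕ → Set (ℤ × ℤ)} (h : D.OK k C)
    (hC : ∀ i < k, ∀ z ∈ C' i, dd z (0, 0) ≤ 4 * Sk k → z ∈ C i)
    (hC' : ∀ i < k, C i ⊆ C' i) : D.OK k C' := by
  refine ⟨h.ok.mono hC, h.r1.mono hC hC', h.r2.mono ?_ ?_⟩
  · intro i hi z hz hz'
    refine hC i hi (-z) hz ?_
    have := dd_neg z (0, 0)
    rw [← this] at hz'
    simpa using hz'
  · intro i hi z hz
    exact hC' i hi hz

/-- existence of good data -/
theorem exists_IData (hG : S_GEO) (hR : S_ROUTE) (k : ℕ) (C : ℕ → Set (ℤ × ℤ))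
    (hC : ∀ i < k, Sep (C i) (Rk i)) : ∃ D : IData, D.OK k C := by
  obtain ⟨I, hI⟩ := hG k C hC
  obtain ⟨b1, q1, h1⟩ := hR k C hC I hI
  obtain ⟨b2, q2, h2⟩ := hR k (negC C) (by
    intro i hi p hp q hq hpq
    have := hC i hi (-p) hp (-q) hq (by simpa using hpq)
    rwa [dd_neg] at this) I.rot hI.rot
  exact ⟨⟨I, b1, q1, b2, q2⟩, hI, h1, h2⟩

/-! ## the labels of a family -/

/-- first layer data -/
def IData.l1 (D : IData) : LData := ⟨D.I, D.b1, D.q1⟩

/-- second layer data -/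
def IData.l2 (D : IData) : LData := ⟨D.I.rot, D.b2, D.q2⟩

/-- height of the first layer at the cell with relative coordinates `c` -/
def IData.h1 (D : IData) (c : ℤ × ℤ) : ℤ := D.b1 c.1 c.2

/-- height of the second layer at the cell with relative coordinates `c` -/
def IData.h2 (D : IData) (c : ℤ × ℤ) : ℤ := D.b2 (-c.1) (-c.2 - 1)

/-- what a cell knows: level, relative coordinates, data -/
structure Info where
  lev : ℕ
  pos : ℤ × ℤ
  D : IData

open Classical in
/-- The label of a vertex computed from the cells above, below and to the right. -/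
def labOf (a b r : Info) : Lab :=
  (cmpL b.lev r.lev, cmpL r.lev a.lev, decide (a.pos.1 % 2 = 0),
    (decide (b.lev = r.lev ∧ r.D.h1 r.pos = b.D.h1 b.pos + 1),
      decide (r.lev = a.lev ∧ a.D.h1 a.pos = r.D.h1 r.pos + 1),
      decide (b.D.I.yt b.pos.1 ≤ b.D.I.xt b.pos.1), Fin.ofNat 512 (b.D.q1 b.pos.1)),
    (decide (r.lev = b.lev ∧ b.D.h2 b.pos = r.D.h2 r.pos + 1),
      decide (a.lev = r.lev ∧ r.D.h2 r.pos = a.D.h2 a.pos + 1),
      decide (a.D.I.rot.yt (-a.pos.1) ≤ a.D.I.rot.xt (-a.pos.1)), Fin.ofNat 512 (a.D.q2 (-a.pos.1))))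

/-- A family of islands on the grid. -/
structure Fam (C : ℕ → Set (ℤ × ℤ)) (lev : ℤ → ℤ → ℕ) (cen : ℤ → ℤ → ℤ × ℤ)
    (D : ℕ → ℤ × ℤ → IData) : Prop where
  sep : ∀ k, Sep (C k) (Rk k)
  ok : ∀ k, ∀ z ∈ C k, (D k z).OK k (shC C z)
  cen_mem : ∀ t x, cen t x ∈ C (lev t x)
  cen_in : ∀ t x, (D (lev t x) (cen t x)).I.In (t - (cen t x).1) (x - (cen t x).2)
  min : ∀ t x, ∀ k < lev t x, ∀ z ∈ C k, ¬ (D k z).I.In (t - z.1) (x - z.2)

/-- the info of a cell of a family -/
def inf (lev : ℤ → ℤ → ℕ) (cen : ℤ → ℤ → ℤ × ℤ) (D : ℕ → ℤ × ℤ → IData) (t x : ℤ) : Info :=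
  ⟨lev t x, (t - (cen t x).1, x - (cen t x).2), D (lev t x) (cen t x)⟩

/-- the labels of a family -/
def labs (lev : ℤ → ℤ → ℕ) (cen : ℤ → ℤ → ℤ × ℤ) (D : ℕ → ℤ × ℤ → IData) (t x : ℤ) : Lab :=
  labOf (inf lev cen D t x) (inf lev cen D t (x - 1)) (inf lev cen D (t + 1) x)

section

variable {C : ℕ → Set (ℤ × ℤ)} {lev : ℤ → ℤ → ℕ} {cen : ℤ → ℤ → ℤ × ℤ} {D : ℕ → ℤ × ℤ → IData}

theorem Fam.lay1_eq (h : Fam C lev cen D) :
    lay1 (labs lev cen D) = famLay lev cen (fun k z => (D k z).l1) := by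
  unfold lay1 famLay
  congr 1
  funext t x
  change (Fin.ofNat 512 _).val = _
  simp only [Fin.ofNat]
  exact Nat.mod_eq_of_lt ((h.ok _ _ (h.cen_mem t (x - 1))).r1.qlt _)

theorem W3_sw_cmpL (i j : ℕ) : sw (cmpL i j) = cmpL j i := by
  unfold cmpL
  rcases lt_trichotomy i j with h | h | h
  · have h1 : i ≠ j := by omega
    have h2 : j ≠ i := by omega
    have h3 : ¬ j < i := by omega
    simp [h1, h2, h, h3, sw]
  · simp [h, sw]
  · have h1 : i ≠ j := by omega
    have h2 : j ≠ i := by omega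
    have h3 : ¬ i < j := by omega
    simp [h1, h2, h, h3, sw]

theorem Lay.ext' {A B : Lay} (h0 : ∀ t x, A.e0 t x = B.e0 t x) (h1 : ∀ t x, A.e1 t x = B.e1 t x)
    (h2 : ∀ t x, A.l0 t x = B.l0 t x) (h3 : ∀ t x, A.l1 t x = B.l1 t x)
    (h4 : ∀ t x, A.p t x = B.p t x) (h5 : ∀ t x, A.q t x = B.q t x) : A = B := by
  cases A; cases B
  simp only [Lay.mk.injEq]
  exact ⟨funext fun t => funext fun x => h0 t x, funext fun t => funext fun x => h1 t x,
    funext fun t => funext fun x => h2 t x, funext fun t => funext fun x => h3 t x,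
    funext fun t => funext fun x => h4 t x, funext fun t => funext fun x => h5 t x⟩

theorem Fam.lay2_eq (h : Fam C lev cen D) :
    lay2 (labs lev cen D) = famLay (fun t x => lev (-t) (-x - 1)) (fun t x => - cen (-t) (-x - 1))
      (fun k z => (D k (-z)).l2) := by
  have a1 : ∀ t : ℤ, -t - 1 + 1 = -t := fun t => by ring
  have a2 : ∀ x : ℤ, -(x - 1) - 1 = -x := fun x => by ring
  have a3 : ∀ t : ℤ, -(t + 1) = -t - 1 := fun t => by ring
  have a4 : ∀ x : ℤ, -x - 1 + 1 = -x := fun t => by ring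
  have a5 : ∀ t c : ℤ, t - -c = -(-t - c) := fun t c => by ring
  have a9 : ∀ x c : ℤ, -(-x - 1 - c) - 1 = -(-x - c) := fun x c => by ring
  have a10 : ∀ x c : ℤ, -(-x - c) - 1 = -(-(x - 1) - c) := fun x c => by ring
  apply Lay.ext'
  · intro t x
    change sw (cmpL (lev (-t - 1) (-x - 1)) (lev (-t - 1 + 1) (-x))) =
      cmpL (lev (-t) (-(x - 1) - 1)) (lev (-(t + 1)) (-x - 1))
    rw [W3_sw_cmpL, a1, a2, a3]
  · intro t x
    change sw (cmpL (lev (-t - 1 + 1) (-x - 1)) (lev (-t - 1) (-x - 1))) =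
      cmpL (lev (-(t + 1)) (-x - 1)) (lev (-t) (-x - 1))
    rw [W3_sw_cmpL, a1, a3]
  · intro t x
    simp only [lay2, famLay, labs, labOf, inf, IData.h2, IData.l2, a1, a2, a3, neg_neg,
      Prod.fst_neg, Prod.snd_neg, a5, a9, a10]
  · intro t x
    simp only [lay2, famLay, labs, labOf, inf, IData.h2, IData.l2, a1, a2, a3, neg_neg,
      Prod.fst_neg, Prod.snd_neg, a5, a9, a10]
  · intro t x
    simp only [lay2, famLay, labs, labOf, inf, IData.h2, IData.l2, a1, a2, a3, neg_neg,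
      Prod.fst_neg, Prod.snd_neg, a5, a9, a10]
    congr 1
  · intro t x
    have hq := (h.ok _ _ (h.cen_mem (-t) (-x))).r2.qlt (-(-t - (cen (-t) (-x)).1))
    simp only [lay2, famLay, labs, labOf, inf, IData.l2, a2, neg_neg,
      Prod.fst_neg, a5, Fin.ofNat]
    exact Nat.mod_eq_of_lt hq

theorem In_bound {I : Lens} {k : ℕ} {C : ℕ → Set (ℤ × ℤ)} (h : I.OK k C) {t x : ℤ}
    (hi : I.In t x) : |t| ≤ Sk k ∧ |x| ≤ Sk k := by
  obtain ⟨h1, h2, h3, h4⟩ := hi
  have b1 := h.bt0
  have b2 := h.bt1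
  have b3 := h.bd t (by omega) (by omega)
  have b4 := h.bu t (by omega) (by omega)
  rw [abs_le] at b3 b4
  constructor
  · rw [abs_le]; omega
  · rw [abs_le]; omega

theorem Fam.same (h : Fam C lev cen D) {t x t' x' : ℤ} (hl : lev t x = lev t' x')
    (h1 : |t - t'| ≤ 2) (h2 : |x - x'| ≤ 2) : cen t x = cen t' x' := by
  by_contra hne
  have h3 := h.sep (lev t x) _ (h.cen_mem t x) _ (hl ▸ h.cen_mem t' x') hne
  have b1 := In_bound (h.ok _ _ (h.cen_mem t x)).ok (h.cen_in t x)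
  have b2 := In_bound (h.ok _ _ (h.cen_mem t' x')).ok (h.cen_in t' x')
  rw [← hl] at b2
  have h4 := Rk_ge (lev t x)
  have h5 := Sk_ge (lev t x)
  unfold dd at h3
  rw [lt_max_iff] at h3
  simp only [abs_le] at b1 b2 h1 h2
  rcases h3 with h3 | h3
  · rw [lt_abs] at h3; omega
  · rw [lt_abs] at h3; omega

/-- the rotated family -/
theorem shC_negC (C : ℕ → Set (ℤ × ℤ)) (z : ℤ × ℤ) : shC (negC C) z = negC (shC C (-z)) := by
  funext i
  ext w
  change -(w + z) ∈ C i ↔ -w + -z ∈ C i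
  rw [neg_add]

theorem Fam.rule (hL : S_LAB1) (h : Fam C lev cen D) (t x : ℤ) : Rule (labs lev cen D) t x := by
  refine ⟨?_, ?_, ?_⟩
  · rw [h.lay1_eq]
    exact hL C lev cen _ h.sep (fun k z hz => ⟨(h.ok k z hz).ok, (h.ok k z hz).r1⟩)
      (fun t x => ⟨h.cen_mem t x, h.cen_in t x⟩) h.min t x
  · rw [h.lay2_eq]
    refine hL (negC C) _ _ _ ?_ ?_ ?_ ?_ (-t) (-x)
    · intro k p hp q hq hpq
      have := h.sep k (-p) hp (-q) hq (by simpa using hpq)
      rwa [dd_neg] at this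
    · intro k z hz
      have := h.ok k (-z) hz
      rw [shC_negC]
      exact ⟨this.ok.rot, this.r2⟩
    · intro t x
      refine ⟨?_, ?_⟩
      · change - - cen (-t) (-x - 1) ∈ C (lev (-t) (-x - 1))
        rw [neg_neg]
        exact h.cen_mem _ _
      · have := h.cen_in (-t) (-x - 1)
        change (D (lev (-t) (-x - 1)) (- - cen (-t) (-x - 1))).I.rot.In _ _
        rw [neg_neg]
        unfold Lens.In Lens.rot at *
        simp only [Prod.fst_neg, Prod.snd_neg] at *
        rw [show -(t - -(cen (-t) (-x - 1)).1) = -t - (cen (-t) (-x - 1)).1 by ring]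
        omega
    · intro t x k hk z hz hin
      refine h.min (-t) (-x - 1) k hk (-z) hz ?_
      change (D k (-z)).I.rot.In _ _ at hin
      unfold Lens.In Lens.rot at *
      simp only [Prod.fst_neg, Prod.snd_neg] at *
      rw [show -(t - z.1) = -t - -z.1 by ring] at hin
      omega
  · constructor
    · intro he hc
      have hl : lev t (x - 1) = lev (t + 1) x := by
        change cmpL (lev t (x - 1)) (lev (t + 1) x) = .n at he
        unfold cmpL at he
        by_contra hne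
        rw [if_neg hne] at he
        split_ifs at he
      have hs := h.same hl (by rw [show t - (t + 1) = -1 by ring]; norm_num)
        (by rw [show x - 1 - x = -1 by ring]; norm_num)
      change decide ((t + 1 - (cen (t + 1) x).1) % 2 = 0) =
        decide ((t - (cen t (x - 1)).1) % 2 = 0) at hc
      rw [← hs, decide_eq_decide] at hc
      omega
    · intro he hc
      have hl : lev (t + 1) x = lev t x := by
        change cmpL (lev (t + 1) x) (lev t x) = .n at he
        unfold cmpL at he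
        by_contra hne
        rw [if_neg hne] at he
        split_ifs at he
      have hs := h.same hl (by rw [show t + 1 - t = 1 by ring]; norm_num)
        (by rw [sub_self]; norm_num)
      change decide ((t + 1 - (cen (t + 1) x).1) % 2 = 0) =
        decide ((t - (cen t x).1) % 2 = 0) at hc
      rw [← hs, decide_eq_decide] at hc
      omega

end

end Pool.Agent.W927.BM

end
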