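import Pool.Agent.W927.BM.Defs

set_option autoImplicit false

/-! # Statements of the parts of project BM (see the specs of the subtasks for the proofs) -/

noncomputable section

namespace Pool.Agent.W927.BM

open MeasureTheory

/-- DET1: in a layer with finite floors every upper wall vertex is matched, the matched interval is
at most a constant times the floor, and the colours below and above agree. -/
def S_DET1 : Prop :=
  ∀ (K : ℕ) (A : Lay) (c : ℤ → ℤ → Bool), (∀ t x, A.Loc K t x) → (∀ t x, A.ColAt c t x) →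
    (∀ t b, A.U t b → {x | Fl (A.sy t) b x}.Finite) →
    ∀ t b, A.U t b → ∃ a, Mt (A.sy t) a b ∧
      b - a ≤ 4 * K * ({x | Fl (A.sy t) b x}.ncard : ℤ) ∧ c t (a - 1) = c t b

/-- DET2: if all walls are matched and every cell is in finitely many matched intervals then there
are unenclosed cells in every column, their colour is constant and changes with the column. -/
def S_DET2 : Prop :=
  ∀ (A : Lay) (c : ℤ → ℤ → Bool),
    (∀ t x, A.N t x ∨ A.S t x ∨ A.M t x ∨ A.U t x ∨ A.D t x) → (∀ t x, A.ColAt c t x) →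
    (∀ t b, A.U t b → ∃ a, Mt (A.sy t) a b ∧ c t (a - 1) = c t b) →
    (∀ t a, A.D t a → ∃ b, Mt (A.sy t) a b) →
    (∀ t x, {ab : ℤ × ℤ | Mt (A.sy t) ab.1 ab.2 ∧ ab.1 ≤ x ∧ x < ab.2}.Finite) →
    (∀ t, ∃ x, Un (A.sy t) x) ∧
    (∀ t x y, Un (A.sy t) x → Un (A.sy t) y → c t x = c t y) ∧
    (∀ t x y, Un (A.sy t) x → Un (A.sy (t + 1)) y → c t x ≠ c (t + 1) y)

/-- MT1: almost all floors are finite. -/
def S_MT1 : Prop :=
  ∀ (X : Type) [MeasurableSpace X] (μ : Measure X) [IsProbabilityMeasure μ] (a : ℤ → X → X),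
    (∀ x, a 0 x = x) → (∀ i j x, a (i + j) x = a i (a j x)) → (∀ i, MeasurePreserving (a i) μ μ) →
    ∀ f : X → ℤ, Measurable f →
    ∀ᵐ x ∂μ, ∀ b, f (a b x) = -1 → {y | Fl (fun j => f (a j x)) b y}.Finite

/-- MT2: if matched intervals are at most a constant times the floors then almost all cells are in
finitely many matched intervals. -/
def S_MT2 : Prop :=
  ∀ (X : Type) [MeasurableSpace X] (μ : Measure X) [IsProbabilityMeasure μ] (a : ℤ → X → X),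
    (∀ x, a 0 x = x) → (∀ i j x, a (i + j) x = a i (a j x)) → (∀ i, MeasurePreserving (a i) μ μ) →
    ∀ f : X → ℤ, Measurable f → ∀ K : ℕ,
    (∀ᵐ x ∂μ, ∀ α b, Mt (fun j => f (a j x)) α b →
      b - α ≤ K * ({y | Fl (fun j => f (a j x)) b y}.ncard : ℤ)) →
    ∀ᵐ x ∂μ, ∀ j, {ab : ℤ × ℤ | Mt (fun j => f (a j x)) ab.1 ab.2 ∧ ab.1 ≤ j ∧ j < ab.2}.Finite

/-- the two linear functionals, `η = 1/40` -/
def lin : Bool → ℤ → ℤ → ℝ
  | true, t, x => 38 / 40 * x + 1 / 40 * (x - t)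
  | false, t, x => 1 / 40 * x + 38 / 40 * (x - t)

/-- POT: flattened linear functionals. -/
def S_POT : Prop :=
  ∀ (k : ℕ) (C : ℕ → Set (ℤ × ℤ)), (∀ i < k, Sep (C i) (Rk i)) → ∀ j : Bool,
    ∃ Φ : ℤ → ℤ → ℝ,
      (∀ t x, Φ t (x - 1) ≤ Φ (t + 1) x ∧ Φ (t + 1) x ≤ Φ t (x - 1) + 1) ∧
      (∀ t x, Φ (t + 1) x ≤ Φ t x ∧ Φ t x ≤ Φ (t + 1) x + 1) ∧
      (∀ t x, Φ t x ≤ Φ t (x - 1) + 1) ∧
      (∀ t x, Far C k 0 (t, x) → Φ t x = lin j t x) ∧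
      (∀ i < k, ∀ z ∈ C i, ∀ v w : ℤ × ℤ, dd v z ≤ Sk i + 2 → dd w z ≤ Sk i + 2 →
        Far C i 0 v → Far C i 0 w → Φ v.1 v.2 = Φ w.1 w.2)

/-- WALL: a wall close to the line `g₀` which keeps away from all centres `(t, ξ)` of level `< k`
(the second coordinate of a centre is `ξ = x - t/2`). -/
def S_WALL : Prop :=
  ∀ (k : ℕ) (C : ℕ → Set (ℤ × ℤ)), (∀ i < k, Sep (C i) (Rk i)) →
    ∀ g₀ : ℤ → ℝ, (∀ s t : ℤ, |g₀ s - g₀ t| ≤ 1 / 8 * |(s : ℝ) - t|) →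
    ∃ g : ℤ → ℝ, (∀ s t : ℤ, |g s - g t| ≤ 1 / 4 * |(s : ℝ) - t|) ∧
      (∀ t, g₀ t ≤ g t) ∧ (∀ t, g t ≤ g₀ t + ∑ i ∈ Finset.range k, 16 * (Tk i : ℝ)) ∧
      (∀ i < k, ∀ z ∈ C i, ∀ t : ℤ, |t - z.1| ≤ 4 * Tk i →
        3 / 2 * (Tk i : ℝ) + 4 ≤ |g t - ((z.2 : ℝ) - z.1 / 2)|) ∧
      (∀ t : ℤ, (∀ i < k, ∀ z ∈ C i, 2 ^ (i + 12) * (Tk i : ℝ) ≤
        max |(t : ℝ) - z.1| |g₀ t - ((z.2 : ℝ) - z.1 / 2)|) → g t = g₀ t)

/-- TIP: points far from all centres. -/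
def S_TIP : Prop :=
  ∀ (k : ℕ) (C : ℕ → Set (ℤ × ℤ)), (∀ i < k, Sep (C i) (Rk i)) → ∀ v : ℤ × ℤ,
    ∃ w : ℤ × ℤ, dd v w ≤ ∑ i ∈ Finset.range k, Rk i ∧
      ∀ i < k, ∀ z ∈ C i, 2 ^ (i + 13) * Tk i ≤ dd w z

/-- GEO: existence of good islands. -/
def S_GEO : Prop :=
  ∀ (k : ℕ) (C : ℕ → Set (ℤ × ℤ)), (∀ i < k, Sep (C i) (Rk i)) → ∃ I : Lens, I.OK k C

/-- ROUTE: existence of the heights and counters. -/
def S_ROUTE : Prop :=
  ∀ (k : ℕ) (C : ℕ → Set (ℤ × ℤ)), (∀ i < k, Sep (C i) (Rk i)) → ∀ I : Lens, I.OK k C →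
    ∃ (b : ℤ → ℤ → ℤ) (q : ℤ → ℕ), I.Route k C b q

/-- LAB1: the layer of a family of good islands satisfies the local rule. -/
def S_LAB1 : Prop :=
  ∀ (C : ℕ → Set (ℤ × ℤ)) (lev : ℤ → ℤ → ℕ) (cen : ℤ → ℤ → ℤ × ℤ) (dat : ℕ → ℤ × ℤ → LData),
    (∀ k, Sep (C k) (Rk k)) →
    (∀ k, ∀ z ∈ C k, (dat k z).I.OK k (shC C z) ∧
      (dat k z).I.Route k (shC C z) (dat k z).b (dat k z).q) →
    (∀ t x, cen t x ∈ C (lev t x) ∧
      (dat (lev t x) (cen t x)).I.In (t - (cen t x).1) (x - (cen t x).2)) →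
    (∀ t x, ∀ k < lev t x, ∀ z ∈ C k, ¬ (dat k z).I.In (t - z.1) (x - z.2)) →
    ∀ t x, (famLay lev cen dat).Loc 512 t x

/-- NEG: no measurable solution for a probability measure preserving action with ergodic vertical
direction. -/
def S_NEG : Prop :=
  ∀ (X : Type) [MeasurableSpace X] (μ : Measure X) [IsProbabilityMeasure μ]
    (T : ℤ → ℤ → X → X), (∀ y, T 0 0 y = y) →
    (∀ s t x z y, T (s + t) (x + z) y = T s x (T t z y)) →
    (∀ t x, MeasurePreserving (T t x) μ μ) → Ergodic (T 0 1) μ →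
    ¬ ∃ f : X → Lab, (∀ l, MeasurableSet (f ⁻¹' {l})) ∧
      ∀ᵐ y ∂μ, ∀ t x, Rule (fun t' x' => f (T t' x' y)) t x

/-- CAT: separated Borel sets which almost all points (category) visit infinitely often. -/
def S_CAT : Prop :=
  ∀ (X : Type) [TopologicalSpace X] [PolishSpace X] [MeasurableSpace X] [BorelSpace X]
    (T : ℤ → ℤ → X → X), (∀ y, T 0 0 y = y) →
    (∀ s t x z y, T (s + t) (x + z) y = T s x (T t z y)) →
    (∀ t x, Measurable (T t x)) → (∀ t x y, T t x y = y → t = 0 ∧ x = 0) → ∀ R : ℕ → ℤ,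
    ∃ (U : ℕ → Set X) (G : Set X), (∀ k, MeasurableSet (U k)) ∧
      (∀ k, ∀ y ∈ U k, ∀ t x, |t| ≤ R k → |x| ≤ R k → T t x y ∈ U k → t = 0 ∧ x = 0) ∧
      MeasurableSet G ∧ (∀ t x, ∀ y ∈ G, T t x y ∈ G) ∧ G ∈ residual X ∧
      ∀ y ∈ G, ∃ k, y ∈ U k

/-- POS: solution on an invariant comeagre Borel set for every free Borel action. -/
def S_POS : Prop :=
  ∀ (X : Type) [TopologicalSpace X] [PolishSpace X] [MeasurableSpace X] [BorelSpace X]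
    (T : ℤ → ℤ → X → X), (∀ y, T 0 0 y = y) →
    (∀ s t x z y, T (s + t) (x + z) y = T s x (T t z y)) →
    (∀ t x, Measurable (T t x)) → (∀ t x y, T t x y = y → t = 0 ∧ x = 0) →
    ∃ (f : X → Lab) (G : Set X), (∀ l, MeasurableSet (f ⁻¹' {l})) ∧
      MeasurableSet G ∧ (∀ t x, ∀ y ∈ G, T t x y ∈ G) ∧ G ∈ residual X ∧
      ∀ y ∈ G, ∀ t x, Rule (fun t' x' => f (T t' x' y)) t x

end Pool.Agent.W927.BM

end
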